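import Pool.Agent.Y570.CR.CM.Pieces

/-!
The back-and-forth construction of a diffeomorphism.
-/

open Set Filter Topology
open scoped ContDiff Manifold

namespace Pool.Agent.Y570.CR.CM

variable {E : Type} [NormedAddCommGroup E] [NormedSpace ℝ E] [FiniteDimensional ℝ E] [Rg]

local instance : CompleteSpace E := by
  have : ProperSpace E := FiniteDimensional.proper_real E
  infer_instance

local instance : ProperSpace E := FiniteDimensional.proper_real E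

/-- The manifolds coded by `c` and `c'` are diffeomorphic. -/
def Iso (c c' : Code E) : Prop := ∃ Φ : Pt E → Pt E, BijOn Φ (M c) (M c') ∧ ∀ z ∈ M c, LD c c' Φ z

/-- A natural correspondence between the classes of embeddings into two coded manifolds. -/
structure BF (c c' : Code E) (Γ : Pc → (Pt E → Pt E) → (Pt E → Pt E) → Prop) : Prop where
  emb : ∀ P e f, Γ P e f → PEmb P c e ∧ PEmb P c' f
  tot : ∀ P e, PEmb P c e → ∃ f, Γ P e f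
  tot' : ∀ P f, PEmb P c' f → ∃ e, Γ P e f
  nat : ∀ P P₂ e f e₂ f₂ m, Γ P e f → Γ P₂ e₂ f₂ → Mor P P₂ m → PSim P c (e₂ ∘ m) e →
    PSim P c' (f₂ ∘ m) f
  nat' : ∀ P P₂ e f e₂ f₂ m, Γ P e f → Γ P₂ e₂ f₂ → Mor P P₂ m → PSim P c' (f₂ ∘ m) f →
    PSim P c (e₂ ∘ m) e
  mv : ∀ P e f f', Γ P e f → PSim P c' f f' → PEmb P c' f' → Γ P e f'
  mv' : ∀ P e e' f, Γ P e f → PSim P c e e' → PEmb P c e' → Γ P e' f

theorem BF.symm {c c' : Code E} {Γ : Pc → (Pt E → Pt E) → (Pt E → Pt E) → Prop}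
    (h : BF c c' Γ) : BF c' c (fun P f e => Γ P e f) where
  emb P f e hΓ := ⟨(h.emb P e f hΓ).2, (h.emb P e f hΓ).1⟩
  tot P f hf := h.tot' P f hf
  tot' P e he := h.tot P e he
  nat P P₂ f e f₂ e₂ m h1 h2 hm hs := h.nat' P P₂ e f e₂ f₂ m h1 h2 hm hs
  nat' P P₂ f e f₂ e₂ m h1 h2 hm hs := h.nat P P₂ e f e₂ f₂ m h1 h2 hm hs
  mv P f e e' h1 h2 h3 := h.mv' P e e' f h1 h2 h3
  mv' P f f' e h1 h2 h3 := h.mv P e f f' h1 h2 h3

/-- The graph of a state. -/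
def Gr (P : Pc) (e f : Pt E → Pt E) : Set (Pt E × Pt E) :=
  {p | ∃ z ∈ PK E P, PK E P ∈ nh (pd E P) z ∧ e z = p.1 ∧ f z = p.2}

theorem BF.half {c c' : Code E} {Γ : Pc → (Pt E → Pt E) → (Pt E → Pt E) → Prop}
    (h : BF c c' Γ) {P : Pc} {e f : Pt E → Pt E} (hΓ : Γ P e f) {t : List (ℕ × ℕ × ℕ)}
    (ht : valid c t) :
    ∃ P₂ e₂ f₂, Γ P₂ e₂ f₂ ∧ Gr P e f ⊆ Gr P₂ e₂ f₂ ∧
      ∀ w ∈ K c t, ∃ w', (w, w') ∈ Gr P₂ e₂ f₂ := by
  have hne : Nonempty (Pt E) := ⟨∅⟩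
  obtain ⟨heP, hfP⟩ := h.emb P e f hΓ
  have hsv : valid (pd E P) (ps E P) := ps_valid P
  obtain ⟨t₂, ht₂, hcov, _⟩ := image_cover (e := e) (c := c) (W := univ) hsv
    (fun z hz => (heP.ld hz).tendsto) (fun z hz => (heP.ld hz).mem_tgt)
    (fun z _ => Filter.univ_mem)
  obtain ⟨P₂, e₂, he₂, hco⟩ := cofinal c (valid_append ht ht₂)
  rw [K_append] at hco
  obtain ⟨O₂, hO₂, hinj₂, hLD₂⟩ := id he₂
  set I : Set (Pt E) := {z | z ∈ PK E P₂ ∧ PK E P₂ ∈ nh (pd E P₂) z} with hI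
  have hIO : I ⊆ O₂ := by
    rintro z ⟨hz, _⟩
    exact nh_self (K_sub_M (ps_valid P₂) hz) (P := fun z => z ∈ O₂) (hO₂ z hz)
  have hinjI : InjOn e₂ I := hinj₂.mono hIO
  have hInh : ∀ z ∈ I, I ∈ nh (pd E P₂) z := by
    rintro z ⟨h1, h2⟩
    have h3 : ∀ᶠ z' in nh (pd E P₂) z, z' ∈ PK E P₂ := h2
    filter_upwards [h3, nh_ev (K_sub_M (ps_valid P₂) h1) h3] with z' a1 a2
    exact ⟨a1, a2⟩
  set g := Function.invFunOn e₂ I with hg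
  have hge : ∀ z ∈ I, g (e₂ z) = z := fun z hz => hinjI.leftInvOn_invFunOn hz
  -- the set `e₂ '' I`
  have hWnh : ∀ z ∈ PK E P, e₂ '' I ∈ nh c (e z) := by
    intro z hz
    have h1 : e z ∈ K c t₂ := nh_self (heP.ld hz).mem_tgt (P := fun w => w ∈ K c t₂) (hcov z hz)
    obtain ⟨z₂, hz₂, hz₂', hez₂⟩ := hco (e z) (Or.inr h1)
    have hz₂I : z₂ ∈ I := ⟨hz₂', hz₂⟩
    rw [← hez₂, ← (hLD₂ z₂ (hIO hz₂I)).map_nh]
    exact Filter.image_mem_map (hInh z₂ hz₂I)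
  have hm : PEmb P (pd E P₂) (g ∘ e) := by
    refine Emb.post heP hsv hWnh ?_ ?_
    · rintro _ ⟨z, hz, rfl⟩ _ ⟨z', hz', rfl⟩ h2
      rw [hge z hz, hge z' hz'] at h2
      rw [h2]
    · rintro _ ⟨z, hz, rfl⟩
      refine (hLD₂ z (hIO hz)).inverse ?_
      filter_upwards [hInh z hz] with z' hz'
      exact hge z' hz'
  have hmz : ∀ z ∈ PK E P, g (e z) ∈ I ∧ e₂ (g (e z)) = e z := by
    intro z hz
    have h1 : e z ∈ e₂ '' I :=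
      nh_self (heP.ld hz).mem_tgt (P := fun w => w ∈ e₂ '' I) (hWnh z hz)
    obtain ⟨z₂, hz₂, h2⟩ := h1
    rw [← h2, hge z₂ hz₂]
    exact ⟨hz₂, rfl⟩
  have hMor : Mor P P₂ (g ∘ e) := ⟨hm, fun z hz => (hmz z hz).1.2⟩
  have hEq : PEq P (e₂ ∘ (g ∘ e)) e := by
    intro z hz
    filter_upwards [(heP.ld hz).tendsto (hWnh z hz)] with z' hz'
    obtain ⟨z₂, hz₂, h2⟩ := hz'
    show e₂ (g (e z')) = e z'
    rw [← h2, hge z₂ hz₂]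
  obtain ⟨f₂', hf₂'⟩ := h.tot P₂ e₂ he₂
  have hsim : PSim P c' (f₂' ∘ (g ∘ e)) f :=
    h.nat P P₂ e f e₂ f₂' _ hΓ hf₂' hMor (sim_of_eq hEq)
  obtain ⟨T, h', hD, hh⟩ := hsim
  have hf₂e : PEmb P₂ c' f₂' := (h.emb _ _ _ hf₂').2
  refine ⟨P₂, e₂, h' ∘ f₂', ?_, ?_, ?_⟩
  · refine h.mv P₂ e₂ f₂' _ hf₂' ⟨T, h', hD, ?_⟩ (Emb.sub hf₂e hD)
    intro z _
    exact Filter.Eventually.of_forall fun _ => rfl
  · rintro ⟨w, w'⟩ ⟨z, hz, hz', h1, h2⟩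
    have h1' : e z = w := h1
    have h2' : f z = w' := h2
    refine ⟨g (e z), (hmz z hz).1.1, (hmz z hz).1.2, ?_, ?_⟩
    · show e₂ (g (e z)) = w
      rw [(hmz z hz).2, h1']
    · show h' (f₂' (g (e z))) = w'
      rw [← h2']
      exact nh_self (K_sub_M hsv hz) (P := fun z => (h' ∘ (f₂' ∘ (g ∘ e))) z = f z) (hh z hz)
  · intro w hw
    obtain ⟨z, hz, hz', hez⟩ := hco w (Or.inl hw)
    exact ⟨_, z, hz', hz, hez, rfl⟩

theorem Gr_symm {P : Pc} {e f : Pt E → Pt E} {w w' : Pt E} :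
    (w, w') ∈ Gr P e f ↔ (w', w) ∈ Gr P f e := by
  constructor
  · rintro ⟨z, hz, hz', h1, h2⟩
    exact ⟨z, hz, hz', h2, h1⟩
  · rintro ⟨z, hz, hz', h1, h2⟩
    exact ⟨z, hz, hz', h2, h1⟩

theorem BF.full {c c' : Code E} {Γ : Pc → (Pt E → Pt E) → (Pt E → Pt E) → Prop}
    (h : BF c c' Γ) {P : Pc} {e f : Pt E → Pt E} (hΓ : Γ P e f) {t t' : List (ℕ × ℕ × ℕ)}
    (ht : valid c t) (ht' : valid c' t') :
    ∃ P₂ e₂ f₂, Γ P₂ e₂ f₂ ∧ Gr P e f ⊆ Gr P₂ e₂ f₂ ∧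
      (∀ w ∈ K c t, ∃ w', (w, w') ∈ Gr P₂ e₂ f₂) ∧
      ∀ w' ∈ K c' t', ∃ w, (w, w') ∈ Gr P₂ e₂ f₂ := by
  obtain ⟨P₁, e₁, f₁, hΓ₁, hsub₁, hcov₁⟩ := h.half hΓ ht
  obtain ⟨P₂, f₂, e₂, hΓ₂, hsub₂, hcov₂⟩ := h.symm.half (e := f₁) (f := e₁) hΓ₁ ht'
  have hsub : Gr P₁ e₁ f₁ ⊆ Gr P₂ e₂ f₂ := by
    rintro ⟨w, w'⟩ hw
    exact Gr_symm.1 (hsub₂ (Gr_symm.1 hw))
  refine ⟨P₂, e₂, f₂, hΓ₂, hsub₁.trans hsub, ?_, ?_⟩
  · intro w hw
    obtain ⟨w', hw'⟩ := hcov₁ w hw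
    exact ⟨w', hsub hw'⟩
  · intro w' hw'
    obtain ⟨w, hw⟩ := hcov₂ w' hw'
    exact ⟨w, Gr_symm.1 hw⟩

/-- An enumeration of the balls. -/
theorem exists_enum : ∃ ν : ℕ → ℕ × ℕ × ℕ, Function.Surjective ν := exists_surjective_nat _

theorem BF.iso {c c' : Code E} {Γ : Pc → (Pt E → Pt E) → (Pt E → Pt E) → Prop}
    (h : BF c c' Γ) : Iso c c' := by
  classical
  have hne : Nonempty (Pt E) := ⟨∅⟩
  obtain ⟨ν, hν⟩ := exists_enum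
  set tn : Code E → ℕ → List (ℕ × ℕ × ℕ) := fun c n =>
    if (cb (ν n) : Set E) ⊆ c.V (ν n).1 (ν n).1 then [ν n] else [] with htn
  have htv : ∀ c n, valid c (tn c n) := by
    intro c n
    simp only [htn]
    split_ifs with h1
    · intro b hb
      rw [List.mem_singleton.1 hb]
      exact h1
    · simp [valid]
  have htc : ∀ (c : Code E), ∀ w ∈ M c, ∃ n, w ∈ K c (tn c n) := by
    rintro c w ⟨i, x, hx, rfl⟩
    obtain ⟨b, hb1, hb2, hb3⟩ := exists_rb i ((c.isOpen i i).mem_nhds hx)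
    obtain ⟨n, hn⟩ := hν b
    refine ⟨n, ?_⟩
    have h1 : (cb (ν n) : Set E) ⊆ c.V (ν n).1 (ν n).1 := by
      rw [hn, hb1]
      exact hb3
    simp only [htn]
    rw [if_pos h1]
    refine ⟨ν n, List.mem_singleton.2 rfl, x, ?_, ?_⟩
    · rw [hn]
      exact ob_sub_cb b hb2
    · rw [hn, hb1]
  -- the sequence of states
  let S : Type := {p : Pc × (Pt E → Pt E) × (Pt E → Pt E) // Γ p.1 p.2.1 p.2.2}
  have hstep : ∀ (n : ℕ) (x : S), ∃ y : S, Gr x.1.1 x.1.2.1 x.1.2.2 ⊆ Gr y.1.1 y.1.2.1 y.1.2.2 ∧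
      (∀ w ∈ K c (tn c n), ∃ w', (w, w') ∈ Gr y.1.1 y.1.2.1 y.1.2.2) ∧
      ∀ w' ∈ K c' (tn c' n), ∃ w, (w, w') ∈ Gr y.1.1 y.1.2.1 y.1.2.2 := by
    intro n x
    obtain ⟨P₂, e₂, f₂, h1, h2, h3, h4⟩ := h.full x.2 (htv c n) (htv c' n)
    exact ⟨⟨(P₂, e₂, f₂), h1⟩, h2, h3, h4⟩
  choose step hstep using hstep
  obtain ⟨P₀, e₀, he₀, _⟩ := cofinal c (t := []) (by simp [valid])
  obtain ⟨f₀, hf₀⟩ := h.tot P₀ e₀ he₀
  let sq : ℕ → S := fun n => Nat.rec ⟨(P₀, e₀, f₀), hf₀⟩ (fun n x => step n x) n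
  have hsq : ∀ n, sq (n + 1) = step n (sq n) := fun n => rfl
  set G : ℕ → Set (Pt E × Pt E) := fun n => Gr (sq n).1.1 (sq n).1.2.1 (sq n).1.2.2 with hG
  have hGm : Monotone G := by
    refine monotone_nat_of_le_succ ?_
    intro n
    simp only [hG, hsq]
    exact (hstep n (sq n)).1
  have hGc : ∀ w ∈ M c, ∃ n w', (w, w') ∈ G n := by
    intro w hw
    obtain ⟨n, hn⟩ := htc c w hw
    obtain ⟨w', hw'⟩ := (hstep n (sq n)).2.1 w hn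
    exact ⟨n + 1, w', hw'⟩
  have hGc' : ∀ w' ∈ M c', ∃ n w, (w, w') ∈ G n := by
    intro w' hw'
    obtain ⟨n, hn⟩ := htc c' w' hw'
    obtain ⟨w, hw⟩ := (hstep n (sq n)).2.2 w' hn
    exact ⟨n + 1, w, hw⟩
  have hfun : ∀ n w w₁ w₂, (w, w₁) ∈ G n → (w, w₂) ∈ G n → w₁ = w₂ := by
    rintro n w w₁ w₂ ⟨z, hz, _, h1, h2⟩ ⟨z', hz', _, h1', h2'⟩
    obtain ⟨O, hO, hinj, hLD⟩ := (h.emb _ _ _ (sq n).2).1
    have hPO : ∀ z ∈ PK E (sq n).1.1, z ∈ O := fun z hz =>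
      nh_self (K_sub_M (ps_valid _) hz) (P := fun z => z ∈ O) (hO z hz)
    have h3 : z = z' := hinj (hPO z hz) (hPO z' hz') (h1.trans h1'.symm)
    rw [← h3] at h2'
    exact h2.symm.trans h2'
  have hinj : ∀ n w₁ w₂ w, (w₁, w) ∈ G n → (w₂, w) ∈ G n → w₁ = w₂ := by
    rintro n w₁ w₂ w ⟨z, hz, _, h1, h2⟩ ⟨z', hz', _, h1', h2'⟩
    obtain ⟨O, hO, hinj, hLD⟩ := (h.emb _ _ _ (sq n).2).2
    have hPO : ∀ z ∈ PK E (sq n).1.1, z ∈ O := fun z hz =>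
      nh_self (K_sub_M (ps_valid _) hz) (P := fun z => z ∈ O) (hO z hz)
    have h3 : z = z' := hinj (hPO z hz) (hPO z' hz') (h2.trans h2'.symm)
    rw [← h3] at h1'
    exact h1.symm.trans h1'
  have hex : ∀ w, ∃ w', w ∈ M c → ∃ n, (w, w') ∈ G n := by
    intro w
    by_cases hw : w ∈ M c
    · obtain ⟨n, w', h1⟩ := hGc w hw
      exact ⟨w', fun _ => ⟨n, h1⟩⟩
    · exact ⟨∅, fun h => absurd h hw⟩
  choose Φ hΦ using hex
  have hΦ' : ∀ n w w', (w, w') ∈ G n → w ∈ M c → Φ w = w' := by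
    intro n w w' h1 hw
    obtain ⟨m, h2⟩ := hΦ w hw
    exact hfun (max n m) w _ _ (hGm (le_max_right _ _) h2) (hGm (le_max_left _ _) h1)
  refine ⟨Φ, ⟨?_, ?_, ?_⟩, ?_⟩
  · intro w hw
    obtain ⟨n, z, hz, _, h1, h2⟩ := hΦ w hw
    have h2' : (sq n).1.2.2 z = Φ w := h2
    rw [← h2']
    exact ((h.emb _ _ _ (sq n).2).2.ld hz).mem_tgt
  · intro w₁ hw₁ w₂ hw₂ heq
    obtain ⟨n, h1⟩ := hΦ w₁ hw₁
    obtain ⟨m, h2⟩ := hΦ w₂ hw₂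
    rw [← heq] at h2
    exact hinj (max n m) _ _ _ (hGm (le_max_left _ _) h1) (hGm (le_max_right _ _) h2)
  · intro w' hw'
    obtain ⟨n, w, h1⟩ := hGc' w' hw'
    have hw : w ∈ M c := by
      obtain ⟨z, hz, _, h2, _⟩ := h1
      have h2' : (sq n).1.2.1 z = w := h2
      rw [← h2']
      exact ((h.emb _ _ _ (sq n).2).1.ld hz).mem_tgt
    exact ⟨w, hw, hΦ' n w w' h1 hw⟩
  · intro w hw
    obtain ⟨n, z, hz, hzI, h1, h2⟩ := hΦ w hw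
    set e := (sq n).1.2.1 with he
    set f := (sq n).1.2.2 with hf
    set P := (sq n).1.1 with hP
    have h1' : e z = w := h1
    obtain ⟨hE, hF⟩ := h.emb _ _ _ (sq n).2
    have hle := hE.ld hz
    have hlf := hF.ld hz
    obtain ⟨O, hO, hinjO, hLD⟩ := id hE
    have hg : ∀ᶠ z' in nh (pd E P) z, Function.invFunOn e O (e z') = z' := by
      filter_upwards [hO z hz] with z' hz'
      exact hinjO.leftInvOn_invFunOn hz'
    have hgz : Function.invFunOn e O (e z) = z :=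
      nh_self hle.1 (P := fun z' => Function.invFunOn e O (e z') = z') hg
    have hl1 : LD c (pd E P) (Function.invFunOn e O) (e z) := hle.inverse hg
    have hl2 : LD (pd E P) c' f (Function.invFunOn e O (e z)) := by
      rw [hgz]
      exact hlf
    have hl3 := hl2.comp hl1
    rw [h1'] at hl3
    refine hl3.congr ?_
    rw [← h1', ← hle.map_nh, eventually_map]
    have hI : ∀ᶠ z' in nh (pd E P) z, z' ∈ PK E P := hzI
    filter_upwards [hg, hI, nh_ev hle.1 hI, hle.ev] with z' a1 a2 a3 a4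
    show f (Function.invFunOn e O (e z')) = Φ (e z')
    rw [a1]
    exact (hΦ' n (e z') (f z') ⟨z', a2, a3, rfl, rfl⟩ a4.mem_tgt).symm

end Pool.Agent.Y570.CR.CM
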