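import Pool.Agent.Y570.CR.CM.BackForth

/-!
Two coded manifolds are diffeomorphic iff the attached countable structures are isomorphic.
-/

open Set Filter Topology
open scoped ContDiff Manifold

namespace Pool.Agent.Y570.CR.CM

variable {E : Type} [NormedAddCommGroup E] [NormedSpace ℝ E] [FiniteDimensional ℝ E] [Rg]

local instance : CompleteSpace E := by
  have : ProperSpace E := FiniteDimensional.proper_real E
  infer_instance

local instance : ProperSpace E := FiniteDimensional.proper_real E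

theorem PSim.symm {P : Pc} {c : Code E} {e e' : Pt E → Pt E} (he : PEmb P c e)
    (h : PSim P c e e') : PSim P c e' e := sim.symm he h

theorem PSim.trans {P : Pc} {c : Code E} {e e' e'' : Pt E → Pt E} (h : PSim P c e e')
    (h' : PSim P c e' e'') : PSim P c e e'' := sim.trans h h'

theorem PSim.pre {P P₂ : Pc} {c : Code E} {e e' m : Pt E → Pt E} (h : PSim P₂ c e e')
    (hm : Mor P P₂ m) : PSim P c (e ∘ m) (e' ∘ m) :=
  sim.pre h hm.1 (fun _ hz => hm.mem hz) (ps_valid P)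

theorem PEmb.comp {P P₂ : Pc} {c : Code E} {e m : Pt E → Pt E} (h : PEmb P₂ c e)
    (hm : Mor P P₂ m) : PEmb P c (e ∘ m) :=
  Emb.comp h hm.1 (fun _ hz => hm.mem hz) (ps_valid P)

theorem RR_mor_iff {P P₂ : Pc} {c : Code E} {x x₂ : Nm} {e e' e₂ e₂' m : Pt E → Pt E} {n : ℕ}
    (hx : x.1 = P) (hx₂ : x₂.1 = P₂) (hN : Nam x c e') (hs : PSim P c e' e)
    (hN₂ : Nam x₂ c e₂') (hs₂ : PSim P₂ c e₂' e₂) (he : PEmb P c e) (he₂ : PEmb P₂ c e₂)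
    (hm : Mor P P₂ m) (hr : Mor P P₂ (rep E P P₂ n))
    (hrm : ∀ (c : Code E) (e : Pt E → Pt E), PEmb P₂ c e →
      PSim P c (e ∘ rep E P P₂ n) (e ∘ m)) :
    PSim P c (e₂ ∘ m) e ↔ RR c (Sum.inr (Sum.inr n)) x₂ x := by
  subst hx hx₂
  have h2 : PEmb x₂.1 c e₂' := hN₂.emb
  have h1 : PEmb x.1 c e' := hN.emb
  constructor
  · intro h
    refine ⟨hr, e₂', e', hN₂, hN, ?_⟩
    exact (((hrm c e₂' h2).trans (hs₂.pre hm)).trans h).trans (PSim.symm h1 hs)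
  · rintro ⟨_, e₂'', e'', hN₂', hN', hss⟩
    have a1 : PSim x₂.1 c e₂ e₂' := PSim.symm h2 hs₂
    have a2 : PSim x₂.1 c e₂ e₂'' := a1.trans (hN₂.sim hN₂')
    have a3 : PSim x.1 c (e₂ ∘ m) (e₂ ∘ rep E x.1 x₂.1 n) :=
      PSim.symm (he₂.comp hr) (hrm c e₂ he₂)
    exact ((a3.trans (a2.pre hr)).trans hss).trans ((hN'.sim hN).trans hs)

/-- An isomorphism of the attached structures gives a diffeomorphism. -/
theorem iso_of_equiv {c c' : Code E} (σ : Nm ≃ Nm)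
    (hσ : ∀ S x₂ x, RR c S x₂ x ↔ RR c' S (σ x₂) (σ x)) : Iso c c' := by
  have hsort : ∀ x, (σ x).1 = x.1 := by
    intro x
    have h1 : RR c (Sum.inl x.1) x x := rfl
    exact (hσ _ _ _).1 h1
  have hval : ∀ x, (∃ e, Nam x c e) ↔ ∃ e, Nam (σ x) c' e := fun x => hσ (Sum.inr (Sum.inl ())) x x
  refine BF.iso (Γ := fun P e f => PEmb P c e ∧ PEmb P c' f ∧ ∃ x : Nm, x.1 = P ∧
    (∃ e', Nam x c e' ∧ PSim P c e' e) ∧ ∃ f', Nam (σ x) c' f' ∧ PSim P c' f' f) ?_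
  refine ⟨?_, ?_, ?_, ?_, ?_, ?_, ?_⟩
  · rintro P e f ⟨h1, h2, _⟩
    exact ⟨h1, h2⟩
  · intro P e he
    obtain ⟨n, hn⟩ := exists_name he
    obtain ⟨f, hf⟩ := (hval (P, n, 0)).1 ⟨e, hn 0⟩
    have h1 := hf.emb
    rw [hsort] at h1
    exact ⟨f, he, h1, (P, n, 0), rfl, ⟨e, hn 0, sim.refl _⟩, ⟨f, hf, sim.refl _⟩⟩
  · intro P f hf
    obtain ⟨n, hn⟩ := exists_name hf
    have h0 : ∃ e, Nam (σ (σ.symm (P, n, 0))) c' e := by
      rw [σ.apply_symm_apply]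
      exact ⟨f, hn 0⟩
    obtain ⟨e, he⟩ := (hval (σ.symm (P, n, 0))).2 h0
    have h1 := he.emb
    have h2 : (σ.symm (P, n, 0)).1 = P := by
      have := hsort (σ.symm (P, n, 0))
      rw [σ.apply_symm_apply] at this
      exact this.symm
    rw [h2] at h1
    refine ⟨e, h1, hf, σ.symm (P, n, 0), h2, ⟨e, he, sim.refl _⟩, ⟨f, ?_, sim.refl _⟩⟩
    rw [σ.apply_symm_apply]
    exact hn 0
  · rintro P P₂ e f e₂ f₂ m ⟨he, hf, x, hx, ⟨e', hN, hs⟩, ⟨f', hN', hs'⟩⟩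
      ⟨he₂, hf₂, x₂, hx₂, ⟨e₂', hN₂, hs₂⟩, ⟨f₂', hN₂', hs₂'⟩⟩ hm h
    obtain ⟨n, hr, hrm⟩ := exists_rep hm
    have h1 := (RR_mor_iff hx hx₂ hN hs hN₂ hs₂ he he₂ hm hr hrm).1 h
    exact (RR_mor_iff ((hsort x).trans hx) ((hsort x₂).trans hx₂) hN' hs' hN₂' hs₂' hf hf₂ hm hr
      hrm).2 ((hσ _ _ _).1 h1)
  · rintro P P₂ e f e₂ f₂ m ⟨he, hf, x, hx, ⟨e', hN, hs⟩, ⟨f', hN', hs'⟩⟩
      ⟨he₂, hf₂, x₂, hx₂, ⟨e₂', hN₂, hs₂⟩, ⟨f₂', hN₂', hs₂'⟩⟩ hm h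
    obtain ⟨n, hr, hrm⟩ := exists_rep hm
    have h1 := (RR_mor_iff ((hsort x).trans hx) ((hsort x₂).trans hx₂) hN' hs' hN₂' hs₂' hf hf₂
      hm hr hrm).1 h
    exact (RR_mor_iff hx hx₂ hN hs hN₂ hs₂ he he₂ hm hr hrm).2 ((hσ _ _ _).2 h1)
  · rintro P e f f' ⟨he, hf, x, hx, h1, ⟨f'', hN', hs'⟩⟩ h2 h3
    exact ⟨he, h3, x, hx, h1, ⟨f'', hN', hs'.trans h2⟩⟩
  · rintro P e e' f ⟨he, hf, x, hx, ⟨e'', hN, hs⟩, h1⟩ h2 h3
    exact ⟨h3, hf, x, hx, ⟨e'', hN, hs.trans h2⟩, h1⟩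

theorem exists_equiv_of_rel {α : Type} [Countable α] (T : α → α → Prop)
    (rows : ∀ a, {b | T a b}.Infinite) (cols : ∀ b, {a | T a b}.Infinite)
    (dif : ∀ a b c d, T a b → T c b → T c d → T a d) : ∃ σ : α ≃ α, ∀ a, T a (σ a) := by
  classical
  set q : α → Set α := fun a => {b | T a b} with hq
  set q' : α → Set α := fun b => {b' | ∃ a, T a b ∧ T a b'} with hq'
  have hqq : ∀ a b, T a b → q a = q' b := by
    intro a b hab
    ext b'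
    constructor
    · intro h
      exact ⟨a, hab, h⟩
    · rintro ⟨a', h1, h2⟩
      exact dif a b a' b' hab h1 h2
  have hex : ∀ S : Set α, Nonempty ({a // q a = S} ≃ {b // q' b = S}) := by
    intro S
    by_cases h : ∃ a, q a = S
    · obtain ⟨a, ha⟩ := h
      obtain ⟨b, hb⟩ := (rows a).nonempty
      have i1 : Infinite {a // q a = S} := by
        have h1 : {a' | T a' b} ⊆ {a' | q a' = S} := by
          intro a' ha'
          show q a' = S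
          rw [hqq a' b ha', ← hqq a b hb, ha]
        exact ((cols b).mono h1).to_subtype
      have i2 : Infinite {b // q' b = S} := by
        have h1 : {b' | T a b'} ⊆ {b' | q' b' = S} := by
          intro b' hb'
          show q' b' = S
          rw [← hqq a b' hb', ha]
        exact ((rows a).mono h1).to_subtype
      exact nonempty_equiv_of_countable
    · have i1 : IsEmpty {a // q a = S} := ⟨fun x => h ⟨x.1, x.2⟩⟩
      have i2 : IsEmpty {b // q' b = S} := by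
        refine ⟨fun x => ?_⟩
        obtain ⟨a, ha⟩ := (cols x.1).nonempty
        exact h ⟨a, (hqq a x.1 ha).trans x.2⟩
      exact ⟨Equiv.equivOfIsEmpty _ _⟩
  set F : ∀ S : Set α, {a // q a = S} ≃ {b // q' b = S} := fun S => (hex S).some with hF
  set σ : α ≃ α := (Equiv.sigmaFiberEquiv q).symm.trans
    ((Equiv.sigmaCongrRight F).trans (Equiv.sigmaFiberEquiv q')) with hσ
  refine ⟨σ, ?_⟩
  intro a
  have h1 : q' (σ a) = q a := (F (q a) ⟨a, rfl⟩).2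
  obtain ⟨a', ha'⟩ := (cols (σ a)).nonempty
  have h2 : σ a ∈ q' (σ a) := ⟨a', ha', ha'⟩
  rw [h1] at h2
  exact h2

theorem PSim.post {P : Pc} {c c' : Code E} {Φ e e' : Pt E → Pt E} (hinj : InjOn Φ (M c))
    (hLD : ∀ z ∈ M c, LD c c' Φ z) (he : PEmb P c e) (h : PSim P c e e') :
    PSim P c' (Φ ∘ e) (Φ ∘ e') := by
  obtain ⟨t, h, hd, hh⟩ := h
  exact sim_post hinj hLD hd (fun z hz => nh_M (K_sub_M hd.val hz)) (fun z hz => he.ev_M hz) hh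

theorem PEmb.post {P : Pc} {c c' : Code E} {Φ e : Pt E → Pt E} (hinj : InjOn Φ (M c))
    (hLD : ∀ z ∈ M c, LD c c' Φ z) (he : PEmb P c e) : PEmb P c' (Φ ∘ e) :=
  Emb.post he (ps_valid P) (fun _ hz => nh_M (he.ld hz).mem_tgt) hinj hLD

theorem Iso.symm' {c c' : Code E} {Φ : Pt E → Pt E} (h : BijOn Φ (M c) (M c'))
    (hLD : ∀ z ∈ M c, LD c c' Φ z) :
    ∃ Ψ : Pt E → Pt E, BijOn Ψ (M c') (M c) ∧ (∀ z ∈ M c', LD c' c Ψ z) ∧
      (∀ z ∈ M c, Ψ (Φ z) = z) ∧ ∀ z ∈ M c', Φ (Ψ z) = z := by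
  have hne : Nonempty (Pt E) := ⟨∅⟩
  have h1 : InvOn (Function.invFunOn Φ (M c)) Φ (M c) (M c') := h.invOn_invFunOn
  refine ⟨Function.invFunOn Φ (M c), h.symm h1.symm, ?_, h1.1, h1.2⟩
  intro z hz
  obtain ⟨w, hw, rfl⟩ := h.surjOn hz
  refine (hLD w hw).inverse ?_
  filter_upwards [nh_M hw] with w' hw'
  exact h1.1 hw'

/-- A diffeomorphism gives an isomorphism of the attached structures. -/
theorem equiv_of_iso {c c' : Code E} (hiso : Iso c c') :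
    ∃ σ : Nm ≃ Nm, ∀ S x₂ x, RR c S x₂ x ↔ RR c' S (σ x₂) (σ x) := by
  obtain ⟨Φ, hΦ, hLD⟩ := hiso
  obtain ⟨Ψ, hΨ, hLD', hΨΦ, hΦΨ⟩ := Iso.symm' hΦ hLD
  set T : Nm → Nm → Prop := fun x x' => x.1 = x'.1 ∧
    ((∃ e e', Nam x c e ∧ Nam x' c' e' ∧ PSim x.1 c' (Φ ∘ e) e') ∨
      ((¬ ∃ e, Nam x c e) ∧ ¬ ∃ e', Nam x' c' e')) with hT
  have hTn : ∀ x x' e e', T x x' → Nam x c e → Nam x' c' e' → PSim x.1 c' (Φ ∘ e) e' := by
    rintro x x' e e' ⟨h1, h2⟩ hN hN'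
    rcases h2 with ⟨e₁, e₁', a1, a2, a3⟩ | ⟨h2, _⟩
    · have b1 : PSim x.1 c' (Φ ∘ e) (Φ ∘ e₁) := PSim.post hΦ.injOn hLD hN.emb (hN.sim a1)
      have b2 : PSim x.1 c' e₁' e' := by
        have := a2.sim hN'
        rw [← h1] at this
        exact this
      exact (b1.trans a3).trans b2
    · exact absurd ⟨e, hN⟩ h2
  have hTv : ∀ x x', T x x' → ((∃ e, Nam x c e) ↔ ∃ e', Nam x' c' e') := by
    rintro x x' ⟨_, h2⟩
    rcases h2 with ⟨e₁, e₁', a1, a2, a3⟩ | ⟨h2, h3⟩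
    · exact ⟨fun _ => ⟨_, a2⟩, fun _ => ⟨_, a1⟩⟩
    · exact ⟨fun h => absurd h h2, fun h => absurd h h3⟩
  have hmk : ∀ x x' e e', x.1 = x'.1 → Nam x c e → Nam x' c' e' → PSim x.1 c' (Φ ∘ e) e' →
      T x x' := fun x x' e e' h1 h2 h3 h4 => ⟨h1, Or.inl ⟨e, e', h2, h3, h4⟩⟩
  obtain ⟨σ, hσ⟩ := exists_equiv_of_rel T (by
      intro x
      by_cases hv : ∃ e, Nam x c e
      · obtain ⟨e, he⟩ := hv
        obtain ⟨n, hn⟩ := exists_name (he.emb.post hΦ.injOn hLD)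
        refine Set.infinite_of_injective_forall_mem (f := fun m : ℕ => ((x.1, n, m) : Nm)) ?_ ?_
        · intro m m' h
          exact (Prod.mk.inj (Prod.mk.inj h).2).2
        · intro m
          exact hmk x _ e _ rfl he (hn m) (sim.refl _)
      · refine Set.infinite_of_injective_forall_mem (f := fun m : ℕ => ((x.1, 0, m) : Nm)) ?_ ?_
        · intro m m' h
          exact (Prod.mk.inj (Prod.mk.inj h).2).2
        · intro m
          refine ⟨rfl, Or.inr ⟨hv, ?_⟩⟩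
          rintro ⟨e', he'⟩
          exact not_Nam_zero _ _ _ _ he') (by
      intro x'
      by_cases hv : ∃ e', Nam x' c' e'
      · obtain ⟨e', he'⟩ := hv
        obtain ⟨n, hn⟩ := exists_name (he'.emb.post hΨ.injOn hLD')
        refine Set.infinite_of_injective_forall_mem (f := fun m : ℕ => ((x'.1, n, m) : Nm)) ?_ ?_
        · intro m m' h
          exact (Prod.mk.inj (Prod.mk.inj h).2).2
        · intro m
          refine hmk _ x' _ e' rfl (hn m) he' ?_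
          refine sim_of_eq ?_
          intro z hz
          filter_upwards [he'.emb.ev_M hz] with z' hz'
          exact hΦΨ _ hz'
      · refine Set.infinite_of_injective_forall_mem (f := fun m : ℕ => ((x'.1, 0, m) : Nm)) ?_ ?_
        · intro m m' h
          exact (Prod.mk.inj (Prod.mk.inj h).2).2
        · intro m
          refine ⟨rfl, Or.inr ⟨?_, hv⟩⟩
          rintro ⟨e', he'⟩
          exact not_Nam_zero _ _ _ _ he') (by
      intro a b a' b' h1 h2 h3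
      have s1 : a.1 = b'.1 := h1.1.trans (h2.1.symm.trans h3.1)
      by_cases hv : ∃ e, Nam a c e
      · obtain ⟨ea, hea⟩ := hv
        obtain ⟨eb, heb⟩ := (hTv _ _ h1).1 ⟨ea, hea⟩
        obtain ⟨ea', hea'⟩ := (hTv _ _ h2).2 ⟨eb, heb⟩
        obtain ⟨eb', heb'⟩ := (hTv _ _ h3).1 ⟨ea', hea'⟩
        have t1 := hTn _ _ _ _ h1 hea heb
        have t2 := hTn _ _ _ _ h2 hea' heb
        have t3 := hTn _ _ _ _ h3 hea' heb'
        have s2 : a'.1 = a.1 := h2.1.trans h1.1.symm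
        rw [s2] at t2 t3
        have hpe : PEmb a'.1 c' (Φ ∘ ea') := hea'.emb.post hΦ.injOn hLD
        rw [s2] at hpe
        exact hmk _ _ _ _ s1 hea heb' ((t1.trans (PSim.symm hpe t2)).trans t3)
      · have hvb : ¬ ∃ e, Nam b c' e := fun h => hv ((hTv _ _ h1).2 h)
        have hva' : ¬ ∃ e, Nam a' c e := fun h => hvb ((hTv _ _ h2).1 h)
        have hvb' : ¬ ∃ e, Nam b' c' e := fun h => hva' ((hTv _ _ h3).2 h)
        exact ⟨s1, Or.inr ⟨hv, hvb'⟩⟩)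
  refine ⟨σ, ?_⟩
  have hsort : ∀ x, (σ x).1 = x.1 := fun x => (hσ x).1.symm
  intro S x₂ x
  rcases S with P | ⟨⟨⟩⟩ | n
  · show x₂.1 = P ↔ (σ x₂).1 = P
    rw [hsort]
  · exact hTv _ _ (hσ x₂)
  · show (Mor x.1 x₂.1 (rep E x.1 x₂.1 n) ∧
      ∃ e₂ e₁, Nam x₂ c e₂ ∧ Nam x c e₁ ∧ PSim x.1 c (e₂ ∘ rep E x.1 x₂.1 n) e₁) ↔
      (Mor (σ x).1 (σ x₂).1 (rep E (σ x).1 (σ x₂).1 n) ∧
      ∃ e₂ e₁, Nam (σ x₂) c' e₂ ∧ Nam (σ x) c' e₁ ∧
        PSim (σ x).1 c' (e₂ ∘ rep E (σ x).1 (σ x₂).1 n) e₁)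
    rw [hsort x, hsort x₂]
    constructor
    · rintro ⟨hm, e₂, e₁, h2, h1, hs⟩
      obtain ⟨e₂', h2'⟩ := (hTv _ _ (hσ x₂)).1 ⟨e₂, h2⟩
      obtain ⟨e₁', h1'⟩ := (hTv _ _ (hσ x)).1 ⟨e₁, h1⟩
      refine ⟨hm, e₂', e₁', h2', h1', ?_⟩
      have t2 := hTn _ _ _ _ (hσ x₂) h2 h2'
      have t1 := hTn _ _ _ _ (hσ x) h1 h1'
      have p2 : PEmb x₂.1 c' (Φ ∘ e₂) := h2.emb.post hΦ.injOn hLD
      have t3 : PSim x.1 c' (e₂' ∘ rep E x.1 x₂.1 n) ((Φ ∘ e₂) ∘ rep E x.1 x₂.1 n) :=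
        (PSim.symm p2 t2).pre hm
      have t4 : PSim x.1 c' (Φ ∘ (e₂ ∘ rep E x.1 x₂.1 n)) (Φ ∘ e₁) :=
        PSim.post hΦ.injOn hLD (h2.emb.comp hm) hs
      exact (t3.trans t4).trans t1
    · rintro ⟨hm, e₂', e₁', h2', h1', hs⟩
      obtain ⟨e₂, h2⟩ := (hTv _ _ (hσ x₂)).2 ⟨e₂', h2'⟩
      obtain ⟨e₁, h1⟩ := (hTv _ _ (hσ x)).2 ⟨e₁', h1'⟩
      refine ⟨hm, e₂, e₁, h2, h1, ?_⟩
      have t2 := hTn _ _ _ _ (hσ x₂) h2 h2'
      have t1 := hTn _ _ _ _ (hσ x) h1 h1'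
      have p1 : PEmb x.1 c' (Φ ∘ e₁) := h1.emb.post hΦ.injOn hLD
      have t3 : PSim x.1 c' ((Φ ∘ e₂) ∘ rep E x.1 x₂.1 n) (e₂' ∘ rep E x.1 x₂.1 n) := t2.pre hm
      have t4 : PSim x.1 c' ((Φ ∘ e₂) ∘ rep E x.1 x₂.1 n) (Φ ∘ e₁) :=
        (t3.trans hs).trans (PSim.symm p1 t1)
      have p3' : PEmb x.1 c' (Φ ∘ (e₂ ∘ rep E x.1 x₂.1 n)) :=
        (h2.emb.comp hm).post hΦ.injOn hLD
      have p3 : PEmb x.1 c' ((Φ ∘ e₂) ∘ rep E x.1 x₂.1 n) := p3'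
      have t5 := PSim.post hΨ.injOn hLD' p3 t4
      have t6 : PSim x.1 c (e₂ ∘ rep E x.1 x₂.1 n) (Ψ ∘ ((Φ ∘ e₂) ∘ rep E x.1 x₂.1 n)) := by
        refine sim_of_eq ?_
        intro z hz
        filter_upwards [(h2.emb.comp hm).ev_M hz] with z' hz'
        exact (hΨΦ _ hz').symm
      have t7 : PSim x.1 c (Ψ ∘ (Φ ∘ e₁)) e₁ := by
        refine sim_of_eq ?_
        intro z hz
        filter_upwards [h1.emb.ev_M hz] with z' hz'
        exact hΨΦ _ hz'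
      exact (t6.trans t5).trans t7

theorem iso_iff {c c' : Code E} :
    Iso c c' ↔ ∃ σ : Nm ≃ Nm, ∀ S x₂ x, RR c S x₂ x ↔ RR c' S (σ x₂) (σ x) :=
  ⟨equiv_of_iso, fun ⟨σ, hσ⟩ => iso_of_equiv σ hσ⟩

end Pool.Agent.Y570.CR.CM
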