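import Pool.Agent.Y570.CR.CM.Lang

/-!
Every second countable Hausdorff smooth manifold is coded.
-/

open Set Filter Topology
open scoped ContDiff Manifold

namespace Pool.Agent.Y570.CR.CM

variable {E : Type} [NormedAddCommGroup E] [NormedSpace ℝ E] [Rg]

section

variable {N : Type*} [TopologicalSpace N] [ChartedSpace E N] [IsManifold 𝓘(ℝ, E) rg N] [T2Space N]

open Classical in
/-- The code given by a sequence of charts. -/
noncomputable def codeOf (p : ℕ → N) : Code E where
  V i j := (chartAt E (p i)).target ∩ (chartAt E (p i)).symm ⁻¹' (chartAt E (p j)).source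
  φ i j x := if x ∈ (chartAt E (p i)).target ∩ (chartAt E (p i)).symm ⁻¹' (chartAt E (p j)).source
    then chartAt E (p j) ((chartAt E (p i)).symm x) else 0
  isOpen i j := (chartAt E (p i)).isOpen_inter_preimage_symm (chartAt E (p j)).open_source
  sub i j := by
    rintro x ⟨hx, _⟩
    exact ⟨hx, (chartAt E (p i)).map_target hx⟩
  refl i x hx := by
    rw [if_pos hx]
    exact (chartAt E (p i)).right_inv hx.1
  cocycle i j k x hx hy := by
    have h1 : (chartAt E (p i)).symm x ∈ (chartAt E (p j)).source := hx.2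
    have h2 : (chartAt E (p i)).symm x ∈ (chartAt E (p k)).source := hy.2
    have h3 : (chartAt E (p j)).symm (chartAt E (p j) ((chartAt E (p i)).symm x)) =
        (chartAt E (p i)).symm x := (chartAt E (p j)).left_inv h1
    have h4 : chartAt E (p j) ((chartAt E (p i)).symm x) ∈
        (chartAt E (p j)).target ∩ (chartAt E (p j)).symm ⁻¹' (chartAt E (p k)).source := by
      refine ⟨(chartAt E (p j)).map_source h1, ?_⟩
      show (chartAt E (p j)).symm (chartAt E (p j) ((chartAt E (p i)).symm x)) ∈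
        (chartAt E (p k)).source
      rw [h3]
      exact h2
    rw [if_pos hx, if_pos hy, if_pos h4]
    refine ⟨h4, ?_⟩
    rw [h3]
  smooth i j := by
    have h1 : (chartAt E (p i)).symm ≫ₕ chartAt E (p j) ∈ contDiffGroupoid rg 𝓘(ℝ, E) :=
      HasGroupoid.compatible (chart_mem_atlas E (p i)) (chart_mem_atlas E (p j))
    have h2 := contMDiffOn_of_mem_contDiffGroupoid h1
    rw [contMDiffOn_iff_contDiffOn] at h2
    rw [OpenPartialHomeomorph.trans_source] at h2
    refine h2.congr ?_
    intro x hx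
    exact if_pos hx
  off i j x hx := by
    rw [if_neg hx]
  haus i j x hx y hy hne := by
    have ha : (chartAt E (p i)).symm x ∈ (chartAt E (p i)).source :=
      (chartAt E (p i)).map_target hx.1
    have hb : (chartAt E (p j)).symm y ∈ (chartAt E (p j)).source :=
      (chartAt E (p j)).map_target hy.1
    have hab : (chartAt E (p i)).symm x ≠ (chartAt E (p j)).symm y := by
      intro h
      apply hne
      have h1 : x ∈ (chartAt E (p i)).target ∩
          (chartAt E (p i)).symm ⁻¹' (chartAt E (p j)).source := by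
        refine ⟨hx.1, ?_⟩
        show (chartAt E (p i)).symm x ∈ (chartAt E (p j)).source
        rw [h]
        exact hb
      refine ⟨h1, ?_⟩
      rw [if_pos h1, h]
      exact (chartAt E (p j)).right_inv hy.1
    obtain ⟨A, B, hA, hB, hxA, hyB, hAB⟩ := t2_separation hab
    have e1 : ∀ᶠ x' in 𝓝 x, (chartAt E (p i)).symm x' ∈ A :=
      ((chartAt E (p i)).continuousAt_symm hx.1).eventually (hA.mem_nhds hxA)
    have e2 : ∀ᶠ y' in 𝓝 y, (chartAt E (p j)).symm y' ∈ B :=
      ((chartAt E (p j)).continuousAt_symm hy.1).eventually (hB.mem_nhds hyB)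
    rw [nhds_prod_eq]
    filter_upwards [prod_mem_prod e1 e2] with q hq
    rintro ⟨h1, h2⟩
    rw [if_pos h1] at h2
    have h3 : (chartAt E (p j)).symm q.2 = (chartAt E (p i)).symm q.1 := by
      rw [← h2]
      exact (chartAt E (p j)).left_inv h1.2
    have h4 : (chartAt E (p i)).symm q.1 ∈ A := hq.1
    have h5 : (chartAt E (p j)).symm q.2 ∈ B := hq.2
    rw [h3] at h5
    exact Set.disjoint_left.1 hAB h4 h5

theorem codeOf_mem {p : ℕ → N} {i : ℕ} {x : E} :
    x ∈ (codeOf p).V i i ↔ x ∈ (chartAt E (p i)).target :=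
  ⟨fun h => h.1, fun h => ⟨h, (chartAt E (p i)).map_target h⟩⟩

open Classical in
theorem codeOf_phi {p : ℕ → N} {i j : ℕ} {x : E} (hx : x ∈ (codeOf p : Code E).V i j) :
    (codeOf p : Code E).φ i j x = chartAt E (p j) ((chartAt E (p i)).symm x) := by
  show (if x ∈ (chartAt E (p i)).target ∩ (chartAt E (p i)).symm ⁻¹' (chartAt E (p j)).source
    then chartAt E (p j) ((chartAt E (p i)).symm x) else 0) = _
  exact if_pos hx

theorem diffeo_codeOf {p : ℕ → N} (hp : ∀ z : N, ∃ i, z ∈ (chartAt E (p i)).source) :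
    Nonempty (Diffeomorph 𝓘(ℝ, E) 𝓘(ℝ, E) N (codeOf p : Code E).Pts rg) := by
  set c : Code E := codeOf p with hc
  choose idx hidx using hp
  -- the map to the coded manifold
  have hFm : ∀ (i : ℕ) (z : N), z ∈ (chartAt E (p i)).source → chartAt E (p i) z ∈ c.V i i :=
    fun i z hz => codeOf_mem.2 ((chartAt E (p i)).map_source hz)
  set F : N → c.Pts := fun z => ⟨cls c (idx z) (chartAt E (p (idx z)) z),
    cls_mem_M (hFm _ z (hidx z))⟩ with hF
  have hFeq : ∀ (i : ℕ) (z : N), z ∈ (chartAt E (p i)).source →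
      (F z).val = cls c i (chartAt E (p i) z) := by
    intro i z hz
    show cls c (idx z) (chartAt E (p (idx z)) z) = _
    have h1 : chartAt E (p (idx z)) z ∈ c.V (idx z) i := by
      refine ⟨(chartAt E (p (idx z))).map_source (hidx z), ?_⟩
      show (chartAt E (p (idx z))).symm (chartAt E (p (idx z)) z) ∈ (chartAt E (p i)).source
      rw [(chartAt E (p (idx z))).left_inv (hidx z)]
      exact hz
    rw [cls_φ h1, codeOf_phi h1, (chartAt E (p (idx z))).left_inv (hidx z)]
  set G : c.Pts → N := fun w => (chartAt E (p (c.exists_idx w).choose)).symm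
    (coord (c.exists_idx w).choose w.val) with hG
  have hGeq : ∀ (i : ℕ) (w : c.Pts) (y : E), (i, y) ∈ w.val →
      G w = (chartAt E (p i)).symm y := by
    intro i w y hy
    obtain ⟨y0, hy0⟩ := (c.exists_idx w).choose_spec
    show (chartAt E (p (c.exists_idx w).choose)).symm
      (coord (c.exists_idx w).choose w.val) = (chartAt E (p i)).symm y
    set i0 := (c.exists_idx w).choose with hi0
    have h0 := (mem_iff w.mem _).1 hy0
    have h1 := (mem_iff w.mem _).1 hy
    have h2 : coord i0 w.val = y0 := by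
      rw [h0.2]
      exact coord_cls h0.1
    rw [h2]
    have h3 := (cls_eq_iff h1.1).1 (h0.2.symm.trans h1.2)
    have h4 : y0 ∈ c.V i0 i := h3.1
    have h5 : c.φ i0 i y0 = y := h3.2
    rw [codeOf_phi h4] at h5
    rw [← h5]
    exact ((chartAt E (p i)).left_inv h4.2).symm
  refine ⟨⟨⟨F, G, ?_, ?_⟩, ?_, ?_⟩⟩
  · intro z
    have h1 : ((idx z, chartAt E (p (idx z)) z) : ℕ × E) ∈ (F z).val :=
      mem_cls_self (hFm _ z (hidx z))
    rw [hGeq _ _ _ h1]
    exact (chartAt E (p (idx z))).left_inv (hidx z)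
  · intro w
    obtain ⟨i, y, hy⟩ := c.exists_idx w
    have h1 := (mem_iff w.mem _).1 hy
    have h2 : y ∈ (chartAt E (p i)).target := codeOf_mem.1 h1.1
    rw [hGeq i w y hy]
    apply Code.Pts.ext
    rw [hFeq i _ ((chartAt E (p i)).map_target h2), (chartAt E (p i)).right_inv h2]
    exact h1.2.symm
  · intro z
    set i := idx z with hi
    have hz : z ∈ (chartAt E (p i)).source := hidx z
    have h1 : ContMDiffAt 𝓘(ℝ, E) 𝓘(ℝ, E) rg (chartAt E (p i)) z :=
      contMDiffAt_of_mem_maximalAtlas (IsManifold.chart_mem_maximalAtlas (p i)) hz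
    have h2 : c.chart i (F z) ∈ IsManifold.maximalAtlas 𝓘(ℝ, E) rg c.Pts :=
      IsManifold.subset_maximalAtlas ⟨i, F z, rfl⟩
    have h3 : ContMDiffAt 𝓘(ℝ, E) 𝓘(ℝ, E) rg (c.chart i (F z)).symm (chartAt E (p i) z) :=
      contMDiffAt_symm_of_mem_maximalAtlas h2 (hFm i z hz)
    have h4 := h3.comp z h1
    refine h4.congr_of_eventuallyEq ?_
    filter_upwards [(chartAt E (p i)).open_source.mem_nhds hz] with z' hz'
    apply Code.Pts.ext
    show (F z').val = ((c.chart i (F z)).symm (chartAt E (p i) z')).val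
    rw [c.chart_symm (hFm i z' hz'), hFeq i z' hz']
    rfl
  · intro w
    obtain ⟨i, y, hy⟩ := c.exists_idx w
    have h1 := (mem_iff w.mem _).1 hy
    have h2 : c.chart i w ∈ IsManifold.maximalAtlas 𝓘(ℝ, E) rg c.Pts :=
      IsManifold.subset_maximalAtlas ⟨i, w, rfl⟩
    have hws : w ∈ (c.chart i w).source := c.mem_chart.2 ⟨y, hy⟩
    have h3 : ContMDiffAt 𝓘(ℝ, E) 𝓘(ℝ, E) rg (c.chart i w) w :=
      contMDiffAt_of_mem_maximalAtlas h2 hws
    have hwy : c.chart i w w = y := by
      rw [c.chart_apply, h1.2]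
      exact coord_cls h1.1
    have h4 : ContMDiffAt 𝓘(ℝ, E) 𝓘(ℝ, E) rg (chartAt E (p i)).symm (c.chart i w w) := by
      rw [hwy]
      exact contMDiffAt_symm_of_mem_maximalAtlas (IsManifold.chart_mem_maximalAtlas (p i))
        (codeOf_mem.1 h1.1)
    have h5 := h4.comp w h3
    refine h5.congr_of_eventuallyEq ?_
    filter_upwards [(c.chart i w).open_source.mem_nhds hws] with w' hw'
    obtain ⟨y', hy'⟩ := c.mem_chart.1 hw'
    have h6 := (mem_iff w'.mem _).1 hy'
    have h7 : c.chart i w w' = y' := by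
      rw [c.chart_apply, h6.2]
      exact coord_cls h6.1
    show G w' = (chartAt E (p i)).symm (c.chart i w w')
    rw [h7]
    exact hGeq i w' y' hy'

/-- Every Hausdorff second countable smooth manifold is diffeomorphic to a coded one. -/
theorem exists_code [SecondCountableTopology N] :
    ∃ c : Code E, Nonempty (Diffeomorph 𝓘(ℝ, E) 𝓘(ℝ, E) N c.Pts rg) := by
  by_cases hN : Nonempty N
  · obtain ⟨s, hs, hcov⟩ := TopologicalSpace.countable_cover_nhds
      (f := fun x : N => (chartAt E x).source) (fun x => chart_source_mem_nhds E x)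
    have hne : s.Nonempty := by
      by_contra h
      rw [not_nonempty_iff_eq_empty] at h
      rw [h] at hcov
      obtain ⟨z⟩ := hN
      have : z ∈ (univ : Set N) := trivial
      rw [← hcov] at this
      simp at this
    obtain ⟨p, rfl⟩ := hs.exists_eq_range hne
    refine ⟨codeOf p, diffeo_codeOf ?_⟩
    intro z
    have : z ∈ (univ : Set N) := trivial
    rw [← hcov] at this
    simp only [mem_iUnion] at this
    obtain ⟨x, ⟨i, rfl⟩, hx⟩ := this
    exact ⟨i, hx⟩
  · have h1 : IsEmpty N := not_nonempty_iff.1 hN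
    have h2 : IsEmpty (emptyCode E).Pts := by
      refine ⟨fun w => ?_⟩
      obtain ⟨i, x, hx, _⟩ := w.mem
      exact hx
    exact ⟨emptyCode E, ⟨⟨Equiv.equivOfIsEmpty _ _, fun x => h1.elim x, fun x => h2.elim x⟩⟩⟩

end

end Pool.Agent.Y570.CR.CM
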