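import Pool.Agent.Y570.CR.CM.Code

/-!
Continuous convergence of families of smooth maps, together with the first derivative.
-/

open Set Filter Topology
open scoped ContDiff

namespace Pool.Agent.Y570.CR.CM

variable {κ : Type} {E : Type} [NormedAddCommGroup E] [NormedSpace ℝ E] [Rg]
variable {F : Type} [NormedAddCommGroup F] [NormedSpace ℝ F]
variable {G : Type} [NormedAddCommGroup G] [NormedSpace ℝ G]

theorem ev_ev {X : Type} [TopologicalSpace X] {l : Filter κ} {x : X} {P : κ × X → Prop}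
    (h : ∀ᶠ p in l ×ˢ 𝓝 x, P p) : ∀ᶠ p in l ×ˢ 𝓝 x, ∀ᶠ x' in 𝓝 p.2, P (p.1, x') := by
  rw [Filter.eventually_prod_iff] at h ⊢
  obtain ⟨pa, ha, pb, hb, h⟩ := h
  refine ⟨pa, ha, fun x' => ∀ᶠ x'' in 𝓝 x', pb x'', hb.eventually_nhds, ?_⟩
  intro k hk x' hx'
  filter_upwards [hx'] with x'' hx''
  exact h hk hx''

theorem ev_self {X : Type} [TopologicalSpace X] {l : Filter κ} {x : X} {P : κ × X → Prop}
    (h : ∀ᶠ p in l ×ˢ 𝓝 x, P p) : ∀ᶠ k in l, P (k, x) := by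
  rw [Filter.eventually_prod_iff] at h
  obtain ⟨pa, ha, pb, hb, h⟩ := h
  filter_upwards [ha] with k hk
  exact h hk hb.self_of_nhds

theorem ev_snd {X : Type} [TopologicalSpace X] {l : Filter κ} {x : X} {P : X → Prop}
    (h : ∀ᶠ y in 𝓝 x, P y) : ∀ᶠ p in l ×ˢ 𝓝 x, P p.2 :=
  (tendsto_snd (f := l) (g := 𝓝 x)).eventually h

theorem ev_fst {X : Type} [TopologicalSpace X] {l : Filter κ} {x : X} {P : κ → Prop}
    (h : ∀ᶠ k in l, P k) : ∀ᶠ p in l ×ˢ 𝓝 x, P p.1 :=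
  (tendsto_fst (f := l) (g := 𝓝 x)).eventually h

/-- `u` is smooth in a neighbourhood of `x`. -/
def SN (u : E → F) (x : E) : Prop := ∀ᶠ x' in 𝓝 x, ContDiffAt ℝ rg u x'

theorem SN.self {u : E → F} {x : E} (h : SN u x) : ContDiffAt ℝ rg u x := h.self_of_nhds

theorem SN.ev {u : E → F} {x : E} (h : SN u x) : ∀ᶠ x' in 𝓝 x, SN u x' :=
  Filter.Eventually.eventually_nhds h

theorem SN.congr {u v : E → F} {x : E} (h : SN u x) (e : ∀ᶠ x' in 𝓝 x, u x' = v x') : SN v x := by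
  have e' : ∀ᶠ x' in 𝓝 x, ∀ᶠ x'' in 𝓝 x', u x'' = v x'' := e.eventually_nhds
  filter_upwards [h, e'] with x' h1 h2
  have h3 : u =ᶠ[𝓝 x'] v := h2
  exact h1.congr_of_eventuallyEq h3.symm

theorem SN.diff {u : E → F} {x : E} (h : SN u x) : DifferentiableAt ℝ u x :=
  h.self.differentiableAt (by simp)

theorem SN.comp {u : E → F} {v : F → G} {x : E} (hv : SN v (u x)) (hu : SN u x) :
    SN (v ∘ u) x := by
  have h1 := hu.self.continuousAt.tendsto.eventually hv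
  filter_upwards [hu, h1] with x' h2 h3
  exact h3.comp x' h2

theorem SN.add {u v : E → F} {x : E} (hu : SN u x) (hv : SN v x) :
    SN (fun y => u y + v y) x := by
  filter_upwards [hu, hv] with y h1 h2
  exact h1.add h2

theorem SN.sub {u v : E → F} {x : E} (hu : SN u x) (hv : SN v x) :
    SN (fun y => u y - v y) x := by
  filter_upwards [hu, hv] with y h1 h2
  exact h1.sub h2

theorem SN.smul {χ : E → ℝ} {v : E → F} {x : E} (hu : SN χ x) (hv : SN v x) :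
    SN (fun y => χ y • v y) x := by
  filter_upwards [hu, hv] with y h1 h2
  exact h1.smul h2

/-- Continuous convergence at `x`, with smoothness and convergence of the derivatives. -/
def CS (l : Filter κ) (u : κ → E → F) (u₀ : E → F) (x : E) : Prop :=
  (∀ᶠ p in l ×ˢ 𝓝 x, ContDiffAt ℝ rg (u p.1) p.2) ∧ SN u₀ x ∧
    Tendsto (fun p : κ × E => (u p.1 p.2, fderiv ℝ (u p.1) p.2)) (l ×ˢ 𝓝 x)
      (𝓝 (u₀ x, fderiv ℝ u₀ x))

theorem CS.val {l : Filter κ} {u : κ → E → F} {u₀ : E → F} {x : E} (h : CS l u u₀ x) :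
    Tendsto (fun p : κ × E => u p.1 p.2) (l ×ˢ 𝓝 x) (𝓝 (u₀ x)) :=
  (continuous_fst.tendsto _).comp h.2.2

theorem CS.der {l : Filter κ} {u : κ → E → F} {u₀ : E → F} {x : E} (h : CS l u u₀ x) :
    Tendsto (fun p : κ × E => fderiv ℝ (u p.1) p.2) (l ×ˢ 𝓝 x) (𝓝 (fderiv ℝ u₀ x)) :=
  (continuous_snd.tendsto _).comp h.2.2

theorem CS.lift {l : Filter κ} {u : κ → E → F} {u₀ : E → F} {x : E} (h : CS l u u₀ x) :
    Tendsto (fun p : κ × E => (p.1, u p.1 p.2)) (l ×ˢ 𝓝 x) (l ×ˢ 𝓝 (u₀ x)) :=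
  tendsto_fst.prodMk h.val

theorem CS.diff {l : Filter κ} {u : κ → E → F} {u₀ : E → F} {x : E} (h : CS l u u₀ x) :
    ∀ᶠ p in l ×ˢ 𝓝 x, DifferentiableAt ℝ (u p.1) p.2 := by
  filter_upwards [h.1] with p hp
  exact hp.differentiableAt (by simp)

theorem CS.mk' {l : Filter κ} {u : κ → E → F} {u₀ : E → F} {x : E}
    (h1 : ∀ᶠ p in l ×ˢ 𝓝 x, ContDiffAt ℝ rg (u p.1) p.2) (h2 : SN u₀ x)
    (h3 : Tendsto (fun p : κ × E => u p.1 p.2) (l ×ˢ 𝓝 x) (𝓝 (u₀ x)))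
    (h4 : Tendsto (fun p : κ × E => fderiv ℝ (u p.1) p.2) (l ×ˢ 𝓝 x) (𝓝 (fderiv ℝ u₀ x))) :
    CS l u u₀ x :=
  ⟨h1, h2, h3.prodMk_nhds h4⟩

theorem CS.congr {l : Filter κ} {u v : κ → E → F} {u₀ v₀ : E → F} {x : E} (h : CS l u u₀ x)
    (h1 : ∀ᶠ p in l ×ˢ 𝓝 x, u p.1 p.2 = v p.1 p.2) (h2 : ∀ᶠ x' in 𝓝 x, u₀ x' = v₀ x') :
    CS l v v₀ x := by
  have h1' := ev_ev h1
  have e1 : ∀ᶠ p in l ×ˢ 𝓝 x, u p.1 =ᶠ[𝓝 p.2] v p.1 := h1'
  have e2 : u₀ =ᶠ[𝓝 x] v₀ := h2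
  refine CS.mk' ?_ (h.2.1.congr h2) ?_ ?_
  · filter_upwards [h.1, e1] with p hp he
    exact hp.congr_of_eventuallyEq he.symm
  · rw [← e2.self_of_nhds]
    refine h.val.congr' ?_
    exact h1
  · rw [← e2.fderiv_eq]
    refine h.der.congr' ?_
    filter_upwards [e1] with p hp
    exact hp.fderiv_eq

theorem CS.comp {l : Filter κ} {u : κ → E → F} {u₀ : E → F} {x : E} {v : κ → F → G}
    {v₀ : F → G} (hv : CS l v v₀ (u₀ x)) (hu : CS l u u₀ x) :
    CS l (fun k => v k ∘ u k) (v₀ ∘ u₀) x := by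
  have hL := hu.lift
  refine CS.mk' ?_ (hv.2.1.comp hu.2.1) (hv.val.comp hL) ?_
  · filter_upwards [hu.1, hL.eventually hv.1] with p h1 h2
    exact h2.comp _ h1
  · have h1 : fderiv ℝ (v₀ ∘ u₀) x = (fderiv ℝ v₀ (u₀ x)).comp (fderiv ℝ u₀ x) :=
      fderiv_comp x hv.2.1.diff hu.2.1.diff
    rw [h1]
    have h2 : Tendsto (fun p : κ × E => (fderiv ℝ (v p.1) (u p.1 p.2)).comp
        (fderiv ℝ (u p.1) p.2)) (l ×ˢ 𝓝 x)
        (𝓝 ((fderiv ℝ v₀ (u₀ x)).comp (fderiv ℝ u₀ x))) := by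
      have h3 : Continuous (fun q : (F →L[ℝ] G) × (E →L[ℝ] F) => q.1.comp q.2) :=
        continuous_fst.clm_comp continuous_snd
      have h4 := (h3.tendsto (fderiv ℝ v₀ (u₀ x), fderiv ℝ u₀ x)).comp
        ((hv.der.comp hL).prodMk_nhds hu.der)
      exact h4
    refine h2.congr' ?_
    filter_upwards [hu.diff, hL.eventually hv.diff] with p h3 h4
    exact (fderiv_comp p.2 h4 h3).symm

theorem CS_const {l : Filter κ} {u₀ : E → F} {x : E} (h : SN u₀ x) :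
    CS l (fun _ => u₀) u₀ x := by
  refine CS.mk' (ev_snd h) h ?_ ?_
  · exact h.self.continuousAt.tendsto.comp tendsto_snd
  · have h2 : ContinuousAt (fderiv ℝ u₀) x :=
      (h.self.fderiv_right (m := 0) (by simp)).continuousAt
    exact h2.tendsto.comp tendsto_snd

theorem CS_id {l : Filter κ} {x : E} : CS l (fun _ => (id : E → E)) id x :=
  CS_const (Filter.Eventually.of_forall fun _ => contDiffAt_id)

theorem CS.add {l : Filter κ} {u v : κ → E → F} {u₀ v₀ : E → F} {x : E} (hu : CS l u u₀ x)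
    (hv : CS l v v₀ x) : CS l (fun k y => u k y + v k y) (fun y => u₀ y + v₀ y) x := by
  refine CS.mk' ?_ (hu.2.1.add hv.2.1) (hu.val.add hv.val) ?_
  · filter_upwards [hu.1, hv.1] with p h1 h2
    exact h1.add h2
  · rw [fderiv_fun_add hu.2.1.diff hv.2.1.diff]
    refine (hu.der.add hv.der).congr' ?_
    filter_upwards [hu.diff, hv.diff] with p h1 h2
    exact (fderiv_fun_add h1 h2).symm

theorem CS.sub {l : Filter κ} {u v : κ → E → F} {u₀ v₀ : E → F} {x : E} (hu : CS l u u₀ x)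
    (hv : CS l v v₀ x) : CS l (fun k y => u k y - v k y) (fun y => u₀ y - v₀ y) x := by
  refine CS.mk' ?_ (hu.2.1.sub hv.2.1) (hu.val.sub hv.val) ?_
  · filter_upwards [hu.1, hv.1] with p h1 h2
    exact h1.sub h2
  · rw [fderiv_fun_sub hu.2.1.diff hv.2.1.diff]
    refine (hu.der.sub hv.der).congr' ?_
    filter_upwards [hu.diff, hv.diff] with p h1 h2
    exact (fderiv_fun_sub h1 h2).symm

theorem CS.smul {l : Filter κ} {χ : κ → E → ℝ} {χ₀ : E → ℝ} {v : κ → E → F} {v₀ : E → F} {x : E}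
    (hu : CS l χ χ₀ x) (hv : CS l v v₀ x) :
    CS l (fun k y => χ k y • v k y) (fun y => χ₀ y • v₀ y) x := by
  refine CS.mk' ?_ (hu.2.1.smul hv.2.1) (hu.val.smul hv.val) ?_
  · filter_upwards [hu.1, hv.1] with p h1 h2
    exact h1.smul h2
  · rw [fderiv_fun_smul hu.2.1.diff hv.2.1.diff]
    have h3 : Continuous (fun q : (E →L[ℝ] ℝ) × F => q.1.smulRight q.2) := by fun_prop
    have h4 := (h3.tendsto (fderiv ℝ χ₀ x, v₀ x)).comp (hu.der.prodMk_nhds hv.val)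
    refine ((hu.val.smul hv.der).add h4).congr' ?_
    filter_upwards [hu.diff, hv.diff] with p h1 h2
    exact (fderiv_fun_smul h1 h2).symm

end Pool.Agent.Y570.CR.CM
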