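import Pool.Agent.Y570.CR.CM.Conv

/-!
Convergence of codes, and convergence of families of maps between coded manifolds.
-/

open Set Filter Topology
open scoped ContDiff

namespace Pool.Agent.Y570.CR.CM

variable {κ : Type} {E : Type} [NormedAddCommGroup E] [NormedSpace ℝ E] [Rg]

theorem Code.SN (c : Code E) {i j : ℕ} {x : E} (hx : x ∈ c.V i j) : SN (c.φ i j) x := by
  filter_upwards [(c.isOpen i j).mem_nhds hx] with y hy
  exact c.contDiffAt hy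

/-- Convergence of a family of codes. -/
structure CConv (l : Filter κ) (c : κ → Code E) (c₀ : Code E) : Prop where
  mem : ∀ i j, ∀ x ∈ c₀.V i j, ∀ᶠ p in l ×ˢ 𝓝 x, p.2 ∈ (c p.1).V i j
  cs : ∀ i j, ∀ x ∈ c₀.V i j, CS l (fun k => (c k).φ i j) (c₀.φ i j) x
  haus : ∀ i j, ∀ x ∈ c₀.V i i, ∀ y ∈ c₀.V j j, ¬ (x ∈ c₀.V i j ∧ c₀.φ i j x = y) →
    ∀ᶠ p in l ×ˢ 𝓝 (x, y), ¬ (p.2.1 ∈ (c p.1).V i j ∧ (c p.1).φ i j p.2.1 = p.2.2)

theorem CConv.const (l : Filter κ) (c₀ : Code E) : CConv l (fun _ => c₀) c₀ where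
  mem i j x hx := ev_snd ((c₀.isOpen i j).mem_nhds hx)
  cs i j x hx := CS_const (c₀.SN hx)
  haus i j x hx y hy h := by
    have h1 := ev_snd (l := l) (c₀.haus i j x hx y hy h)
    exact h1

theorem CConv.bot (c : κ → Code E) (c₀ : Code E) : CConv ⊥ c c₀ where
  mem i j x hx := by simp
  cs i j x hx := ⟨by simp, c₀.SN hx, by simp⟩
  haus i j x hx y hy h := by simp

/-- The coordinate representation of a map. -/
noncomputable def rp (e : Pt E → Pt E) (d : Code E) (j i : ℕ) (x : E) : E :=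
  coord i (e (cls d j x))

theorem rp_eq {e : Pt E → Pt E} {d c : Code E} {j i : ℕ} {x y : E} (hy : y ∈ c.V i i)
    (h : e (cls d j x) = cls c i y) : rp e d j i x = y := by
  unfold rp
  rw [h]
  exact coord_cls hy

/-- Convergence of a family of maps at the point with chart coordinates `q`, read in the chart `i`
of the target. -/
structure MK (l : Filter κ) (d : κ → Code E) (d₀ : Code E) (c : κ → Code E) (c₀ : Code E)
    (e : κ → Pt E → Pt E) (e₀ : Pt E → Pt E) (q : ℕ × E) (i : ℕ) : Prop where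
  src : q.2 ∈ d₀.V q.1 q.1
  ev0 : ∀ᶠ x in 𝓝 q.2, e₀ (cls d₀ q.1 x) = cls c₀ i (rp e₀ d₀ q.1 i x) ∧
    rp e₀ d₀ q.1 i x ∈ c₀.V i i
  ev : ∀ᶠ p in l ×ˢ 𝓝 q.2, e p.1 (cls (d p.1) q.1 p.2) =
      cls (c p.1) i (rp (e p.1) (d p.1) q.1 i p.2) ∧
    rp (e p.1) (d p.1) q.1 i p.2 ∈ (c p.1).V i i
  cs : CS l (fun k => rp (e k) (d k) q.1 i) (rp e₀ d₀ q.1 i) q.2

variable {l : Filter κ} {d : κ → Code E} {d₀ : Code E} {c : κ → Code E} {c₀ : Code E}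
  {e : κ → Pt E → Pt E} {e₀ : Pt E → Pt E} {q : ℕ × E} {i : ℕ}

theorem MK.of (hc : CConv l c c₀) (hq : q.2 ∈ d₀.V q.1 q.1) (u : κ → E → E) (u₀ : E → E)
    (h0 : u₀ q.2 ∈ c₀.V i i) (h1 : ∀ᶠ x in 𝓝 q.2, e₀ (cls d₀ q.1 x) = cls c₀ i (u₀ x))
    (h2 : ∀ᶠ p in l ×ˢ 𝓝 q.2, e p.1 (cls (d p.1) q.1 p.2) = cls (c p.1) i (u p.1 p.2))
    (h3 : CS l u u₀ q.2) : MK l d d₀ c c₀ e e₀ q i := by
  have h4 : ∀ᶠ p in l ×ˢ 𝓝 q.2, u p.1 p.2 ∈ (c p.1).V i i :=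
    h3.lift.eventually (hc.mem i i (u₀ q.2) h0)
  have h5 : ∀ᶠ x in 𝓝 q.2, u₀ x ∈ c₀.V i i :=
    h3.2.1.self.continuousAt.tendsto.eventually ((c₀.isOpen i i).mem_nhds h0)
  have h6 : ∀ᶠ x in 𝓝 q.2, u₀ x = rp e₀ d₀ q.1 i x := by
    filter_upwards [h1, h5] with x a b
    exact (rp_eq b a).symm
  have h7 : ∀ᶠ p in l ×ˢ 𝓝 q.2, u p.1 p.2 = rp (e p.1) (d p.1) q.1 i p.2 := by
    filter_upwards [h2, h4] with x a b
    exact (rp_eq b a).symm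
  refine ⟨hq, ?_, ?_, ?_⟩
  · filter_upwards [h1, h5, h6] with x a b c
    rw [← c]
    exact ⟨a, b⟩
  · filter_upwards [h2, h4, h7] with x a b c
    rw [← c]
    exact ⟨a, b⟩
  · exact h3.congr h7 h6

theorem MK.source (hd : CConv l d d₀) (hc : CConv l c c₀) (h : MK l d d₀ c c₀ e e₀ q i)
    {j' : ℕ} {y : E} (hy : y ∈ d₀.V j' j') (he : cls d₀ j' y = cls d₀ q.1 q.2) :
    MK l d d₀ c c₀ e e₀ (j', y) i := by
  rw [cls_eq_iff h.src] at he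
  have hcs := hd.cs j' q.1 y he.1
  have h1 : CS l (fun k => rp (e k) (d k) q.1 i) (rp e₀ d₀ q.1 i) (d₀.φ j' q.1 y) := by
    rw [he.2]
    exact h.cs
  have h2 := h1.comp hcs
  refine MK.of hc hy _ _ ?_ ?_ ?_ h2
  · show rp e₀ d₀ q.1 i (d₀.φ j' q.1 y) ∈ c₀.V i i
    rw [he.2]
    exact h.ev0.self_of_nhds.2
  · have h3 : Tendsto (d₀.φ j' q.1) (𝓝 y) (𝓝 q.2) := by
      have := hcs.2.1.self.continuousAt.tendsto
      rwa [he.2] at this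
    have h4 := h3.eventually h.ev0
    filter_upwards [h4, (d₀.isOpen j' q.1).mem_nhds he.1] with x a b
    show e₀ (cls d₀ j' x) = cls c₀ i (rp e₀ d₀ q.1 i (d₀.φ j' q.1 x))
    rw [cls_φ b]
    exact a.1
  · have h3 := hcs.lift
    rw [he.2] at h3
    filter_upwards [h3.eventually h.ev, hd.mem j' q.1 y he.1] with p a b
    show e p.1 (cls (d p.1) j' p.2) = cls (c p.1) i (rp (e p.1) (d p.1) q.1 i ((d p.1).φ j' q.1 p.2))
    rw [cls_φ b]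
    exact a.1

theorem MK.target (hc : CConv l c c₀) (h : MK l d d₀ c c₀ e e₀ q i)
    {i' : ℕ} {y : E} (hy : y ∈ c₀.V i' i') (he : e₀ (cls d₀ q.1 q.2) = cls c₀ i' y) :
    MK l d d₀ c c₀ e e₀ q i' := by
  have h0 := h.ev0.self_of_nhds
  rw [h0.1, cls_eq_iff hy] at he
  have hcs := hc.cs i i' _ he.1
  have h2 := hcs.comp h.cs
  refine MK.of hc h.src _ _ ?_ ?_ ?_ h2
  · show c₀.φ i i' (rp e₀ d₀ q.1 i q.2) ∈ c₀.V i' i'
    rw [he.2]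
    exact hy
  · have h3 : Tendsto (rp e₀ d₀ q.1 i) (𝓝 q.2) (𝓝 (rp e₀ d₀ q.1 i q.2)) :=
      h.cs.2.1.self.continuousAt.tendsto
    have h4 := h3.eventually ((c₀.isOpen i i').mem_nhds he.1)
    filter_upwards [h4, h.ev0] with x a b
    show e₀ (cls d₀ q.1 x) = cls c₀ i' (c₀.φ i i' (rp e₀ d₀ q.1 i x))
    rw [← cls_φ a]
    exact b.1
  · filter_upwards [h.cs.lift.eventually (hc.mem i i' _ he.1), h.ev] with p a b
    show e p.1 (cls (d p.1) q.1 p.2) =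
      cls (c p.1) i' ((c p.1).φ i i' (rp (e p.1) (d p.1) q.1 i p.2))
    rw [← cls_φ a]
    exact b.1

/-- Convergence of a family of maps at the point `z`. -/
def MC (l : Filter κ) (d : κ → Code E) (d₀ : Code E) (c : κ → Code E) (c₀ : Code E)
    (e : κ → Pt E → Pt E) (e₀ : Pt E → Pt E) (z : Pt E) : Prop :=
  z ∈ M d₀ ∧ ∃ q ∈ z, ∃ i, MK l d d₀ c c₀ e e₀ q i

theorem MC.mem_tgt {z : Pt E} (h : MC l d d₀ c c₀ e e₀ z) : e₀ z ∈ M c₀ := by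
  obtain ⟨hz, q, hq, i, h⟩ := h
  have h0 := h.ev0.self_of_nhds
  rw [((mem_iff hz q).1 hq).2, h0.1]
  exact cls_mem_M h0.2

theorem MC.at (hd : CConv l d d₀) (hc : CConv l c c₀) {z : Pt E} (h : MC l d d₀ c c₀ e e₀ z)
    (hq : q ∈ z) {q' : ℕ × E} (hq' : q' ∈ e₀ z) : MK l d d₀ c c₀ e e₀ q q'.1 := by
  have hm := h.mem_tgt
  obtain ⟨hz, p, hp, i, h⟩ := h
  have h1 := (mem_iff hz q).1 hq
  have h2 := (mem_iff hz p).1 hp
  have h3 := (mem_iff hm q').1 hq'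
  have h4 := MK.source hd hc h h1.1 (h1.2.symm.trans h2.2)
  refine MK.target hc h4 h3.1 ?_
  show e₀ (cls d₀ q.1 q.2) = _
  rw [← h1.2]
  exact h3.2

theorem MC.rp_eq {z : Pt E}
    (h : MC l d d₀ c c₀ e e₀ z) (hq : q ∈ z) {q' : ℕ × E} (hq' : q' ∈ e₀ z) :
    rp e₀ d₀ q.1 q'.1 q.2 = q'.2 := by
  have hm := h.mem_tgt
  have h3 := (mem_iff hm q').1 hq'
  have h1 := (mem_iff h.1 q).1 hq
  refine CM.rp_eq h3.1 ?_
  rw [← h1.2]
  exact h3.2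

theorem MK.mc (h : MK l d d₀ c c₀ e e₀ q i) : MC l d d₀ c c₀ e e₀ (cls d₀ q.1 q.2) :=
  ⟨cls_mem_M h.src, q, mem_cls_self h.src, i, h⟩

theorem exists_mem {c : Code E} {z : Pt E} (hz : z ∈ M c) : ∃ q, q ∈ z := by
  obtain ⟨i, x, hx, rfl⟩ := hz
  exact ⟨(i, x), mem_cls_self hx⟩

/-- Composition. -/
theorem MC.comp {b : κ → Code E} {b₀ : Code E} {f : κ → Pt E → Pt E} {f₀ : Pt E → Pt E}
    (hd : CConv l d d₀) (hc : CConv l c c₀) (hb : CConv l b b₀) {z : Pt E}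
    (hf : MC l c c₀ b b₀ f f₀ (e₀ z)) (h : MC l d d₀ c c₀ e e₀ z) :
    MC l d d₀ b b₀ (fun k => f k ∘ e k) (f₀ ∘ e₀) z := by
  obtain ⟨q, hq⟩ := exists_mem h.1
  obtain ⟨q', hq'⟩ := exists_mem h.mem_tgt
  obtain ⟨q'', hq''⟩ := exists_mem hf.mem_tgt
  have h1 := h.at hd hc hq hq'
  have h2 := hf.at hc hb hq' hq''
  have h3 := h.rp_eq hq hq'
  have h4 := hf.rp_eq hq' hq''
  have h5 : CS l (fun k => rp (f k) (c k) q'.1 q''.1) (rp f₀ c₀ q'.1 q''.1)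
      (rp e₀ d₀ q.1 q'.1 q.2) := by
    rw [h3]
    exact h2.cs
  have h6 := h5.comp h1.cs
  refine ⟨h.1, q, hq, q''.1, ?_⟩
  refine MK.of hb h1.src _ _ ?_ ?_ ?_ h6
  · show rp f₀ c₀ q'.1 q''.1 (rp e₀ d₀ q.1 q'.1 q.2) ∈ b₀.V q''.1 q''.1
    rw [h3, h4]
    exact ((mem_iff hf.mem_tgt q'').1 hq'').1
  · have h7 : Tendsto (rp e₀ d₀ q.1 q'.1) (𝓝 q.2) (𝓝 q'.2) := by
      have := h1.cs.2.1.self.continuousAt.tendsto
      rwa [h3] at this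
    filter_upwards [h7.eventually h2.ev0, h1.ev0] with x a b
    show f₀ (e₀ (cls d₀ q.1 x)) = _
    rw [b.1]
    exact a.1
  · have h7 := h1.cs.lift
    rw [h3] at h7
    filter_upwards [h7.eventually h2.ev, h1.ev] with p a b
    show f p.1 (e p.1 (cls (d p.1) q.1 p.2)) = _
    rw [b.1]
    exact a.1

/-- The neighbourhood filter in a coded manifold. -/
def nh (d : Code E) (z : Pt E) : Filter (Pt E) := ⨆ q ∈ z, map (cls d q.1) (𝓝 q.2)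

theorem nh_le {d : Code E} {z : Pt E} (hz : z ∈ M d) {q q' : ℕ × E} (hq : q ∈ z) (hq' : q' ∈ z) :
    map (cls d q.1) (𝓝 q.2) ≤ map (cls d q'.1) (𝓝 q'.2) := by
  have h1 := (mem_iff hz q).1 hq
  have h2 := (mem_iff hz q').1 hq'
  have h3 := (cls_eq_iff h2.1).1 (h1.2.symm.trans h2.2)
  have h4 : Tendsto (d.φ q.1 q'.1) (𝓝 q.2) (𝓝 q'.2) := by
    have := (d.contDiffAt h3.1).continuousAt.tendsto
    rwa [h3.2] at this
  have h5 : Tendsto (fun x => cls d q'.1 (d.φ q.1 q'.1 x)) (𝓝 q.2)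
      (map (cls d q'.1) (𝓝 q'.2)) := tendsto_map.comp h4
  refine h5.congr' ?_
  filter_upwards [(d.isOpen q.1 q'.1).mem_nhds h3.1] with x hx
  exact (cls_φ hx).symm

theorem nh_eq {d : Code E} {z : Pt E} (hz : z ∈ M d) {q : ℕ × E} (hq : q ∈ z) :
    nh d z = map (cls d q.1) (𝓝 q.2) := by
  apply le_antisymm
  · refine iSup₂_le ?_
    intro q' hq'
    exact nh_le hz hq' hq
  · exact le_iSup₂ (f := fun (q : ℕ × E) (_ : q ∈ z) => map (cls d q.1) (𝓝 q.2)) q hq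

theorem nh_cls {d : Code E} {j : ℕ} {x : E} (hx : x ∈ d.V j j) :
    nh d (cls d j x) = map (cls d j) (𝓝 x) :=
  nh_eq (cls_mem_M hx) (mem_cls_self hx)

theorem ev_nh {d : Code E} {j : ℕ} {x : E} (hx : x ∈ d.V j j) {P : Pt E → Prop} :
    (∀ᶠ z in nh d (cls d j x), P z) ↔ ∀ᶠ y in 𝓝 x, P (cls d j y) := by
  rw [nh_cls hx, eventually_map]

theorem evp_nh {d : Code E} {j : ℕ} {x : E} (hx : x ∈ d.V j j) {P : κ × Pt E → Prop} :
    (∀ᶠ p in l ×ˢ nh d (cls d j x), P p) ↔ ∀ᶠ p in l ×ˢ 𝓝 x, P (p.1, cls d j p.2) := by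
  rw [nh_cls hx, Filter.prod_map_right, eventually_map]
  exact Iff.rfl

theorem nh_self {d : Code E} {z : Pt E} (hz : z ∈ M d) {P : Pt E → Prop}
    (h : ∀ᶠ z' in nh d z, P z') : P z := by
  obtain ⟨i, x, hx, rfl⟩ := hz
  rw [ev_nh hx] at h
  exact h.self_of_nhds

theorem nh_ev {d : Code E} {z : Pt E} (hz : z ∈ M d) {P : Pt E → Prop}
    (h : ∀ᶠ z' in nh d z, P z') : ∀ᶠ z' in nh d z, ∀ᶠ z'' in nh d z', P z'' := by
  obtain ⟨i, x, hx, rfl⟩ := hz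
  rw [ev_nh hx] at h ⊢
  filter_upwards [h.eventually_nhds, (d.isOpen i i).mem_nhds hx] with y h1 h2
  rw [ev_nh h2]
  exact h1

theorem nhp_ev {d : Code E} {z : Pt E} (hz : z ∈ M d) {P : κ × Pt E → Prop}
    (h : ∀ᶠ p in l ×ˢ nh d z, P p) :
    ∀ᶠ p in l ×ˢ nh d z, ∀ᶠ z'' in nh d p.2, P (p.1, z'') := by
  obtain ⟨i, x, hx, rfl⟩ := hz
  rw [evp_nh hx] at h ⊢
  filter_upwards [ev_ev h, ev_snd ((d.isOpen i i).mem_nhds hx)] with p h1 h2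
  rw [ev_nh h2]
  exact h1

theorem nh_M {d : Code E} {z : Pt E} (hz : z ∈ M d) : ∀ᶠ z' in nh d z, z' ∈ M d := by
  obtain ⟨i, x, hx, rfl⟩ := hz
  rw [ev_nh hx]
  filter_upwards [(d.isOpen i i).mem_nhds hx] with y h2
  exact cls_mem_M h2

theorem evp_snd {d : Code E} {z : Pt E} {P : Pt E → Prop} (h : ∀ᶠ z' in nh d z, P z') :
    ∀ᶠ p in l ×ˢ nh d z, P p.2 := (tendsto_snd (f := l) (g := nh d z)).eventually h

theorem evp_fst {d : Code E} {z : Pt E} {P : κ → Prop} (h : ∀ᶠ k in l, P k) :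
    ∀ᶠ p in l ×ˢ nh d z, P p.1 := (tendsto_fst (f := l) (g := nh d z)).eventually h

theorem nhp_self {d : Code E} {z : Pt E} (hz : z ∈ M d) {P : κ × Pt E → Prop}
    (h : ∀ᶠ p in l ×ˢ nh d z, P p) : ∀ᶠ k in l, P (k, z) := by
  obtain ⟨i, x, hx, rfl⟩ := hz
  rw [evp_nh hx] at h
  exact ev_self (P := fun p => P (p.1, cls d i p.2)) h

/-- Congruence of convergence (constant source). -/
theorem MC.congr {b₀ : Code E} {e' : κ → Pt E → Pt E} {e₀' : Pt E → Pt E} (hc : CConv l c c₀)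
    {z : Pt E} (h : MC l (fun _ => b₀) b₀ c c₀ e e₀ z)
    (h1 : ∀ᶠ p in l ×ˢ nh b₀ z, e p.1 p.2 = e' p.1 p.2)
    (h2 : ∀ᶠ z' in nh b₀ z, e₀ z' = e₀' z') : MC l (fun _ => b₀) b₀ c c₀ e' e₀' z := by
  obtain ⟨hz, q, hq, i, h⟩ := h
  refine ⟨hz, q, hq, i, ?_⟩
  have hzq := ((mem_iff hz q).1 hq)
  rw [hzq.2] at h1 h2
  rw [ev_nh hzq.1] at h2
  rw [evp_nh hzq.1] at h1
  refine MK.of hc h.src _ _ h.ev0.self_of_nhds.2 ?_ ?_ h.cs
  · filter_upwards [h2, h.ev0] with x a b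
    rw [← a]
    exact b.1
  · filter_upwards [h1, h.ev] with x a b
    rw [← a]
    exact b.1

end Pool.Agent.Y570.CR.CM
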