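import Pool.Agent.Y570.CR.CM.Fam

/-!
Local diffeomorphisms between coded manifolds.
-/

open Set Filter Topology
open scoped ContDiff

namespace Pool.Agent.Y570.CR.CM

variable {κ : Type} {E : Type} [NormedAddCommGroup E] [NormedSpace ℝ E] [Rg]

theorem isInvertible_of_inv {u v : E → E} {x : E} (hu : SN u x) (hv : SN v (u x))
    (h1 : ∀ᶠ x' in 𝓝 x, v (u x') = x') (h2 : ∀ᶠ y in 𝓝 (u x), u (v y) = y) :
    (fderiv ℝ u x).IsInvertible ∧ (fderiv ℝ v (u x)).IsInvertible := by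
  have hx : v (u x) = x := h1.self_of_nhds
  have hu' : SN u (v (u x)) := by rw [hx]; exact hu
  have e1 : (fderiv ℝ v (u x)).comp (fderiv ℝ u x) = ContinuousLinearMap.id ℝ E := by
    rw [← fderiv_comp x hv.diff hu.diff]
    have : (v ∘ u) =ᶠ[𝓝 x] id := h1
    rw [this.fderiv_eq, fderiv_id]
  have e2 : (fderiv ℝ u x).comp (fderiv ℝ v (u x)) = ContinuousLinearMap.id ℝ E := by
    have h3 := fderiv_comp (u x) hu'.diff hv.diff
    rw [hx] at h3
    rw [← h3]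
    have : (u ∘ v) =ᶠ[𝓝 (u x)] id := h2
    rw [this.fderiv_eq, fderiv_id]
  have e1' : ∀ w, fderiv ℝ v (u x) (fderiv ℝ u x w) = w := fun w =>
    congrArg (fun f : E →L[ℝ] E => f w) e1
  have e2' : ∀ w, fderiv ℝ u x (fderiv ℝ v (u x) w) = w := fun w =>
    congrArg (fun f : E →L[ℝ] E => f w) e2
  exact ⟨⟨ContinuousLinearEquiv.equivOfInverse _ _ e1' e2', rfl⟩,
    ⟨ContinuousLinearEquiv.equivOfInverse _ _ e2' e1', rfl⟩⟩

theorem Code.fderiv_inv (c : Code E) {i j : ℕ} {x : E} (hx : x ∈ c.V i j) :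
    (fderiv ℝ (c.φ i j) x).IsInvertible := by
  have h := c.inv hx
  refine (isInvertible_of_inv (c.SN hx) (c.SN h.1) ?_ ?_).1
  · filter_upwards [(c.isOpen i j).mem_nhds hx] with y hy
    exact (c.inv hy).2
  · filter_upwards [(c.isOpen j i).mem_nhds h.1] with y hy
    exact (c.inv hy).2

/-- Local diffeomorphism, in charts. -/
structure LK (d c : Code E) (e : Pt E → Pt E) (q : ℕ × E) (i : ℕ) : Prop where
  src : q.2 ∈ d.V q.1 q.1
  ev0 : ∀ᶠ x in 𝓝 q.2, e (cls d q.1 x) = cls c i (rp e d q.1 i x) ∧ rp e d q.1 i x ∈ c.V i i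
  sn : SN (rp e d q.1 i) q.2
  inv : (fderiv ℝ (rp e d q.1 i) q.2).IsInvertible

variable {d c : Code E} {e : Pt E → Pt E} {q : ℕ × E} {i : ℕ}

theorem LK.of (hq : q.2 ∈ d.V q.1 q.1) (u : E → E) (h0 : u q.2 ∈ c.V i i)
    (h1 : ∀ᶠ x in 𝓝 q.2, e (cls d q.1 x) = cls c i (u x)) (h2 : SN u q.2)
    (h3 : (fderiv ℝ u q.2).IsInvertible) : LK d c e q i := by
  have h5 : ∀ᶠ x in 𝓝 q.2, u x ∈ c.V i i :=
    h2.self.continuousAt.tendsto.eventually ((c.isOpen i i).mem_nhds h0)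
  have h6 : ∀ᶠ x in 𝓝 q.2, u x = rp e d q.1 i x := by
    filter_upwards [h1, h5] with x a b
    exact (rp_eq b a).symm
  refine ⟨hq, ?_, h2.congr h6, ?_⟩
  · filter_upwards [h1, h5, h6] with x a b c
    rw [← c]
    exact ⟨a, b⟩
  · have h7 : u =ᶠ[𝓝 q.2] rp e d q.1 i := h6
    rw [← h7.fderiv_eq]
    exact h3

theorem LK.source (h : LK d c e q i) {j' : ℕ} {y : E} (hy : y ∈ d.V j' j')
    (he : cls d j' y = cls d q.1 q.2) : LK d c e (j', y) i := by
  rw [cls_eq_iff h.src] at he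
  have hsn := d.SN he.1
  have h1 : SN (rp e d q.1 i) (d.φ j' q.1 y) := by
    rw [he.2]
    exact h.sn
  refine LK.of hy (rp e d q.1 i ∘ d.φ j' q.1) ?_ ?_ (h1.comp hsn) ?_
  · show rp e d q.1 i (d.φ j' q.1 y) ∈ c.V i i
    rw [he.2]
    exact h.ev0.self_of_nhds.2
  · have h3 : Tendsto (d.φ j' q.1) (𝓝 y) (𝓝 q.2) := by
      have := hsn.self.continuousAt.tendsto
      rwa [he.2] at this
    filter_upwards [h3.eventually h.ev0, (d.isOpen j' q.1).mem_nhds he.1] with x a b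
    show e (cls d j' x) = cls c i (rp e d q.1 i (d.φ j' q.1 x))
    rw [cls_φ b]
    exact a.1
  · show (fderiv ℝ (rp e d q.1 i ∘ d.φ j' q.1) y).IsInvertible
    rw [fderiv_comp y h1.diff hsn.diff, he.2]
    exact h.inv.comp (d.fderiv_inv he.1)

theorem LK.target (h : LK d c e q i) {i' : ℕ} {y : E} (hy : y ∈ c.V i' i')
    (he : e (cls d q.1 q.2) = cls c i' y) : LK d c e q i' := by
  have h0 := h.ev0.self_of_nhds
  rw [h0.1, cls_eq_iff hy] at he
  have hsn := c.SN he.1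
  refine LK.of h.src (c.φ i i' ∘ rp e d q.1 i) ?_ ?_ (hsn.comp h.sn) ?_
  · show c.φ i i' (rp e d q.1 i q.2) ∈ c.V i' i'
    rw [he.2]
    exact hy
  · have h4 := h.sn.self.continuousAt.tendsto.eventually ((c.isOpen i i').mem_nhds he.1)
    filter_upwards [h4, h.ev0] with x a b
    show e (cls d q.1 x) = cls c i' (c.φ i i' (rp e d q.1 i x))
    rw [← cls_φ a]
    exact b.1
  · rw [fderiv_comp q.2 hsn.diff h.sn.diff]
    exact (c.fderiv_inv he.1).comp h.inv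

/-- `e` is a local diffeomorphism at the point `z`. -/
def LD (d c : Code E) (e : Pt E → Pt E) (z : Pt E) : Prop :=
  z ∈ M d ∧ ∃ q ∈ z, ∃ i, LK d c e q i

theorem LD.mem_tgt {z : Pt E} (h : LD d c e z) : e z ∈ M c := by
  obtain ⟨hz, q, hq, i, h⟩ := h
  have h0 := h.ev0.self_of_nhds
  rw [((mem_iff hz q).1 hq).2, h0.1]
  exact cls_mem_M h0.2

theorem LD.at {z : Pt E} (h : LD d c e z) (hq : q ∈ z) {q' : ℕ × E} (hq' : q' ∈ e z) :
    LK d c e q q'.1 := by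
  have hm := h.mem_tgt
  obtain ⟨hz, p, hp, i, h⟩ := h
  have h1 := (mem_iff hz q).1 hq
  have h2 := (mem_iff hz p).1 hp
  have h3 := (mem_iff hm q').1 hq'
  have h4 := LK.source h h1.1 (h1.2.symm.trans h2.2)
  refine LK.target h4 h3.1 ?_
  show e (cls d q.1 q.2) = _
  rw [← h1.2]
  exact h3.2

theorem LD.rp_eq {z : Pt E} (h : LD d c e z) (hq : q ∈ z) {q' : ℕ × E} (hq' : q' ∈ e z) :
    rp e d q.1 q'.1 q.2 = q'.2 := by
  have hm := h.mem_tgt
  have h3 := (mem_iff hm q').1 hq'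
  have h1 := (mem_iff h.1 q).1 hq
  refine CM.rp_eq h3.1 ?_
  rw [← h1.2]
  exact h3.2

theorem LK.ld (h : LK d c e q i) : LD d c e (cls d q.1 q.2) :=
  ⟨cls_mem_M h.src, q, mem_cls_self h.src, i, h⟩

theorem LD.congr {e' : Pt E → Pt E} {z : Pt E} (h : LD d c e z)
    (h1 : ∀ᶠ z' in nh d z, e z' = e' z') : LD d c e' z := by
  obtain ⟨hz, q, hq, i, h⟩ := h
  refine ⟨hz, q, hq, i, ?_⟩
  have hzq := (mem_iff hz q).1 hq
  rw [hzq.2, ev_nh hzq.1] at h1
  refine LK.of h.src _ h.ev0.self_of_nhds.2 ?_ h.sn h.inv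
  filter_upwards [h1, h.ev0] with x a b
  rw [← a]
  exact b.1

theorem LD.tendsto {z : Pt E} (h : LD d c e z) : Tendsto e (nh d z) (nh c (e z)) := by
  obtain ⟨q, hq⟩ := exists_mem h.1
  obtain ⟨q', hq'⟩ := exists_mem h.mem_tgt
  have h1 := h.at hq hq'
  have h3 := h.rp_eq hq hq'
  have h4 : Tendsto (rp e d q.1 q'.1) (𝓝 q.2) (𝓝 q'.2) := by
    have := h1.sn.self.continuousAt.tendsto
    rwa [h3] at this
  rw [nh_eq h.1 hq, nh_eq h.mem_tgt hq', tendsto_map'_iff]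
  have h5 : Tendsto (fun x => cls c q'.1 (rp e d q.1 q'.1 x)) (𝓝 q.2)
      (map (cls c q'.1) (𝓝 q'.2)) := tendsto_map.comp h4
  refine h5.congr' ?_
  filter_upwards [h1.ev0] with x hx
  exact hx.1.symm

theorem LD.comp {b : Code E} {f : Pt E → Pt E} {z : Pt E} (hf : LD c b f (e z))
    (h : LD d c e z) : LD d b (f ∘ e) z := by
  obtain ⟨q, hq⟩ := exists_mem h.1
  obtain ⟨q', hq'⟩ := exists_mem h.mem_tgt
  obtain ⟨q'', hq''⟩ := exists_mem hf.mem_tgt
  have h1 := h.at hq hq'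
  have h2 := hf.at hq' hq''
  have h3 := h.rp_eq hq hq'
  have h4 := hf.rp_eq hq' hq''
  have h5 : SN (rp f c q'.1 q''.1) (rp e d q.1 q'.1 q.2) := by
    rw [h3]
    exact h2.sn
  refine ⟨h.1, q, hq, q''.1, ?_⟩
  refine LK.of h1.src (rp f c q'.1 q''.1 ∘ rp e d q.1 q'.1) ?_ ?_ (h5.comp h1.sn) ?_
  · show rp f c q'.1 q''.1 (rp e d q.1 q'.1 q.2) ∈ b.V q''.1 q''.1
    rw [h3, h4]
    exact ((mem_iff hf.mem_tgt q'').1 hq'').1
  · have h7 : Tendsto (rp e d q.1 q'.1) (𝓝 q.2) (𝓝 q'.2) := by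
      have := h1.sn.self.continuousAt.tendsto
      rwa [h3] at this
    filter_upwards [h7.eventually h2.ev0, h1.ev0] with x a b
    show f (e (cls d q.1 x)) = _
    rw [b.1]
    exact a.1
  · rw [fderiv_comp q.2 h5.diff h1.sn.diff, h3]
    exact h2.inv.comp h1.inv

theorem LD_id {z : Pt E} (hz : z ∈ M d) : LD d d id z := by
  obtain ⟨q, hq⟩ := exists_mem hz
  have h1 := (mem_iff hz q).1 hq
  refine ⟨hz, q, hq, q.1, LK.of h1.1 id h1.1 ?_ ?_ ?_⟩
  · exact Filter.Eventually.of_forall fun x => rfl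
  · exact Filter.Eventually.of_forall fun x => contDiffAt_id
  · rw [fderiv_id]
    exact ⟨ContinuousLinearEquiv.refl ℝ E, rfl⟩

section Complete

variable [CompleteSpace E]

theorem isInvertible_nhds {A : E →L[ℝ] E} (h : A.IsInvertible) :
    ∀ᶠ B in 𝓝 A, B.IsInvertible := by
  obtain ⟨A', rfl⟩ := h
  filter_upwards [A'.nhds] with B hB
  obtain ⟨B', rfl⟩ := hB
  exact ⟨B', rfl⟩

omit [CompleteSpace E] in
theorem SN.fderiv_tendsto {u : E → E} {x : E} (h : SN u x) :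
    Tendsto (fderiv ℝ u) (𝓝 x) (𝓝 (fderiv ℝ u x)) :=
  (h.self.fderiv_right (m := 0) (by simp)).continuousAt.tendsto

/-- Local inverse of a smooth map with invertible derivative. -/
theorem exists_local_inverse {u : E → E} {x : E} (hu : SN u x)
    (h : (fderiv ℝ u x).IsInvertible) :
    ∃ v : E → E, SN v (u x) ∧ v (u x) = x ∧ (∀ᶠ x' in 𝓝 x, v (u x') = x') ∧
      (∀ᶠ y in 𝓝 (u x), u (v y) = y) ∧ (fderiv ℝ v (u x)).IsInvertible := by
  obtain ⟨A, hA⟩ := h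
  have hf' : HasFDerivAt u (A : E →L[ℝ] E) x := by
    rw [hA]
    exact hu.diff.hasFDerivAt
  have hs : HasStrictFDerivAt u (A : E →L[ℝ] E) x := hu.self.hasStrictFDerivAt' hf' (by simp)
  set P := hs.toOpenPartialHomeomorph u with hP
  have hPu : ∀ y, P y = u y := fun y => rfl
  have hxs : x ∈ P.source := hs.mem_toOpenPartialHomeomorph_source
  have hxt : u x ∈ P.target := P.map_source hxs
  have hsx : P.symm (u x) = x := P.left_inv hxs
  have e1 : ∀ᶠ x' in 𝓝 x, P.symm (u x') = x' := by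
    filter_upwards [P.open_source.mem_nhds hxs] with y hy
    exact P.left_inv hy
  have e2 : ∀ᶠ y in 𝓝 (u x), u (P.symm y) = y := by
    filter_upwards [P.open_target.mem_nhds hxt] with y hy
    exact P.right_inv hy
  have hc : Tendsto P.symm (𝓝 (u x)) (𝓝 x) := by
    have := (P.continuousAt_symm hxt).tendsto
    rwa [hsx] at this
  have hinv : ∀ᶠ x' in 𝓝 x, (fderiv ℝ u x').IsInvertible :=
    hu.fderiv_tendsto.eventually (isInvertible_nhds ⟨A, hA⟩)
  have hsn : SN P.symm (u x) := by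
    filter_upwards [hc.eventually hinv, hc.eventually hu, P.open_target.mem_nhds hxt] with
      y h1 h2 h3
    obtain ⟨B, hB⟩ := h1
    refine P.contDiffAt_symm h3 (f₀' := B) ?_ h2
    rw [hB]
    exact (h2.differentiableAt (by simp)).hasFDerivAt
  exact ⟨P.symm, hsn, hsx, e1, e2, (isInvertible_of_inv hu hsn e1 e2).2⟩

theorem LD.ev {z : Pt E} (h : LD d c e z) : ∀ᶠ z' in nh d z, LD d c e z' := by
  obtain ⟨hz, q, hq, i, h⟩ := h
  have hzq := (mem_iff hz q).1 hq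
  rw [hzq.2, ev_nh hzq.1]
  filter_upwards [(d.isOpen q.1 q.1).mem_nhds hzq.1, h.ev0.eventually_nhds, h.sn.ev,
    h.sn.fderiv_tendsto.eventually (isInvertible_nhds h.inv)] with y a1 a2 a3 a4
  have : LK d c e (q.1, y) i := ⟨a1, a2, a3, a4⟩
  exact this.ld

theorem LD.map_nh {z : Pt E} (h : LD d c e z) : map e (nh d z) = nh c (e z) := by
  obtain ⟨q, hq⟩ := exists_mem h.1
  obtain ⟨q', hq'⟩ := exists_mem h.mem_tgt
  have h1 := h.at hq hq'
  have h3 := h.rp_eq hq hq'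
  obtain ⟨A, hA⟩ := h1.inv
  have hf' : HasFDerivAt (rp e d q.1 q'.1) (A : E →L[ℝ] E) q.2 := by
    rw [hA]
    exact h1.sn.diff.hasFDerivAt
  have hs := h1.sn.self.hasStrictFDerivAt' hf' (by simp)
  have h4 := hs.map_nhds_eq_of_equiv
  rw [h3] at h4
  rw [nh_eq h.1 hq, nh_eq h.mem_tgt hq', ← h4, Filter.map_map, Filter.map_map]
  refine Filter.map_congr ?_
  filter_upwards [h1.ev0] with x hx
  exact hx.1

/-- A left inverse of a local diffeomorphism is a local diffeomorphism. -/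
theorem LD.inverse {z : Pt E} (h : LD d c e z) {g : Pt E → Pt E}
    (hg : ∀ᶠ z' in nh d z, g (e z') = z') : LD c d g (e z) := by
  obtain ⟨q, hq⟩ := exists_mem h.1
  obtain ⟨q', hq'⟩ := exists_mem h.mem_tgt
  have h1 := h.at hq hq'
  have h3 := h.rp_eq hq hq'
  obtain ⟨v, v1, v2, v3, v4, v5⟩ := exists_local_inverse h1.sn h1.inv
  rw [h3] at v1 v2 v4 v5
  have hq2 := (mem_iff h.1 q).1 hq
  have hq2' := (mem_iff h.mem_tgt q').1 hq'
  have hv : Tendsto v (𝓝 q'.2) (𝓝 q.2) := by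
    have := v1.self.continuousAt.tendsto
    rwa [v2] at this
  refine ⟨h.mem_tgt, q', hq', q.1, LK.of hq2'.1 v ?_ ?_ v1 v5⟩
  · rw [v2]
    exact h1.src
  · rw [hq2.2, ev_nh hq2.1] at hg
    filter_upwards [hv.eventually hg, hv.eventually h1.ev0, v4] with y a1 a2 a3
    rw [a2.1, a3] at a1
    exact a1

end Complete

end Pool.Agent.Y570.CR.CM
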