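import Pool.Agent.Y570.CR.CM.Trans

/-!
Local transitivity: two families of embeddings with the same limit are eventually related by
compactly supported diffeomorphisms of the target.
-/

open Set Filter Topology
open scoped ContDiff Manifold

namespace Pool.Agent.Y570.CR.CM

variable {κ : Type} {E : Type} [NormedAddCommGroup E] [NormedSpace ℝ E] [FiniteDimensional ℝ E] [Rg]
variable {l : Filter κ}

local instance : CompleteSpace E := by
  have : ProperSpace E := FiniteDimensional.proper_real E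
  infer_instance

/-- Smooth cutoff function. -/
theorem cutoff {s t : Set E} (hs : IsClosed s) (hst : s ⊆ interior t) :
    ∃ χ : E → ℝ, ContDiff ℝ rg χ ∧ (∀ x ∈ s, ∀ᶠ y in 𝓝 x, χ y = 1) ∧ ∀ x, x ∉ t → χ x = 0 := by
  have : ProperSpace E := FiniteDimensional.proper_real E
  obtain ⟨f, h1, h2, _⟩ := exists_contMDiffMap_one_nhds_of_subset_interior (n := (⊤ : ℕ∞)) 𝓘(ℝ, E)
    hs hst
  refine ⟨f, f.contMDiff.contDiff.of_le rg_le, ?_, h2⟩
  intro x hx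
  exact h1.filter_mono (nhds_le_nhdsSet hx)

/-- A good ball for the embedding `e₀`: `v` is the local inverse of `e₀` in charts. -/
structure GB (d c₀ : Code E) (e₀ : Pt E → Pt E) (O W : Set (Pt E)) (b b' : ℕ × ℕ × ℕ) (j : ℕ)
    (v : E → E) : Prop where
  ball : (cb b : Set E) ⊆ c₀.V b.1 b.1
  inner : (cb b' : Set E) ⊆ ob b
  vs : ∀ y ∈ (cb b : Set E), SN v y
  vV : ∀ y ∈ (cb b : Set E), v y ∈ d.V j j
  vO : ∀ y ∈ (cb b : Set E), cls d j (v y) ∈ O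
  ve : ∀ y ∈ (cb b : Set E), ∀ᶠ y' in 𝓝 y, e₀ (cls d j (v y')) = cls c₀ b.1 y'
  vu : ∀ y ∈ (cb b : Set E), ∀ᶠ x in 𝓝 (v y), v (rp e₀ d j b.1 x) = x
  hW : ∀ y ∈ (cb b : Set E), W ∈ nh c₀ (cls c₀ b.1 y)

theorem exists_GB {d c₀ : Code E} {e₀ : Pt E → Pt E} {O W : Set (Pt E)} {z : Pt E}
    (h : LD d c₀ e₀ z) (hO : O ∈ nh d z) (hW : W ∈ nh c₀ (e₀ z)) :
    ∃ b b' j v, GB d c₀ e₀ O W b b' j v ∧ ∃ y, y ∈ (ob b' : Set E) ∧ e₀ z = cls c₀ b.1 y := by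
  obtain ⟨q, hq⟩ := exists_mem h.1
  obtain ⟨q', hq'⟩ := exists_mem h.mem_tgt
  have h1 := h.at hq hq'
  have h3 := h.rp_eq hq hq'
  obtain ⟨v, v1, v2, v3, v4, v5⟩ := exists_local_inverse h1.sn h1.inv
  rw [h3] at v1 v2 v4 v5
  have hq2 := (mem_iff h.1 q).1 hq
  have hq2' := (mem_iff h.mem_tgt q').1 hq'
  have hv : Tendsto v (𝓝 q'.2) (𝓝 q.2) := by
    have := v1.self.continuousAt.tendsto
    rwa [v2] at this
  have hO' : ∀ᶠ x in 𝓝 q.2, cls d q.1 x ∈ O := by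
    have : ∀ᶠ z' in nh d z, z' ∈ O := hO
    rwa [hq2.2, ev_nh hq2.1] at this
  have hW' : ∀ᶠ y in 𝓝 q'.2, W ∈ nh c₀ (cls c₀ q'.1 y) := by
    have h4 : ∀ᶠ w in nh c₀ (e₀ z), W ∈ nh c₀ w := by
      have h2 : ∀ᶠ w in nh c₀ (e₀ z), w ∈ W := hW
      exact nh_ev h.mem_tgt h2
    rwa [hq2'.2, ev_nh hq2'.1] at h4
  have e1 : ∀ᶠ y in 𝓝 q'.2, e₀ (cls d q.1 (v y)) = cls c₀ q'.1 y := by
    filter_upwards [hv.eventually h1.ev0, v4] with y a b
    rw [a.1, b]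
  have hall : ∀ᶠ y in 𝓝 q'.2, y ∈ c₀.V q'.1 q'.1 ∧ SN v y ∧ v y ∈ d.V q.1 q.1 ∧
      cls d q.1 (v y) ∈ O ∧ (∀ᶠ y' in 𝓝 y, e₀ (cls d q.1 (v y')) = cls c₀ q'.1 y') ∧
      (∀ᶠ x in 𝓝 (v y), v (rp e₀ d q.1 q'.1 x) = x) ∧ W ∈ nh c₀ (cls c₀ q'.1 y) := by
    filter_upwards [(c₀.isOpen q'.1 q'.1).mem_nhds hq2'.1, v1.ev,
      hv.eventually ((d.isOpen q.1 q.1).mem_nhds hq2.1), hv.eventually hO',
      e1.eventually_nhds, hv.eventually v3.eventually_nhds, hW'] with y a1 a2 a3 a4 a5 a6 a7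
    exact ⟨a1, a2, a3, a4, a5, a6, a7⟩
  obtain ⟨b, hb1, hb2, hb3⟩ := exists_rb q'.1 hall
  obtain ⟨b', hb1', hb2', hb3'⟩ := exists_rb q'.1 ((ob_open b).mem_nhds hb2)
  refine ⟨b, b', q.1, v, ⟨?_, hb3', ?_, ?_, ?_, ?_, ?_, ?_⟩, q'.2, hb2', ?_⟩
  · intro y hy
    rw [hb1]
    exact (hb3 hy).1
  · intro y hy
    exact (hb3 hy).2.1
  · intro y hy
    exact (hb3 hy).2.2.1
  · intro y hy
    exact (hb3 hy).2.2.2.1
  · intro y hy
    rw [hb1]
    exact (hb3 hy).2.2.2.2.1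
  · intro y hy
    rw [hb1]
    exact (hb3 hy).2.2.2.2.2.1
  · intro y hy
    rw [hb1]
    exact (hb3 hy).2.2.2.2.2.2
  · rw [hb1]
    exact hq2'.2

variable {d : Code E} {c : κ → Code E} {c₀ : Code E} {e₀ : Pt E → Pt E} {O W : Set (Pt E)}
  {b b' : ℕ × ℕ × ℕ} {j : ℕ} {v : E → E}

theorem GB.self (hG : GB d c₀ e₀ O W b b' j v) {y : E} (hy : y ∈ (cb b : Set E)) :
    e₀ (cls d j (v y)) = cls c₀ b.1 y := (hG.ve y hy).self_of_nhds

theorem GB.mk' (hc : CConv l c c₀) (hG : GB d c₀ e₀ O W b b' j v) {e : κ → Pt E → Pt E}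
    (he : ∀ z ∈ O, MC l (fun _ => d) d c c₀ e e₀ z) {y : E} (hy : y ∈ (cb b : Set E)) :
    MK l (fun _ => d) d c c₀ e e₀ (j, v y) b.1 := by
  have h1 : (b.1, y) ∈ e₀ (cls d j (v y)) := by
    rw [hG.self hy]
    exact mem_cls_self (hG.ball hy)
  exact (he _ (hG.vO y hy)).at (CConv.const l d) hc (mem_cls_self (hG.vV y hy)) h1

theorem GB.cs (hc : CConv l c c₀) (hG : GB d c₀ e₀ O W b b' j v) {e : κ → Pt E → Pt E}
    (he : ∀ z ∈ O, MC l (fun _ => d) d c c₀ e e₀ z) {y : E} (hy : y ∈ (cb b : Set E)) :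
    CS l (fun k y => rp (e k) d j b.1 (v y)) id y := by
  have h1 : CS l (fun k => rp (e k) d j b.1) (rp e₀ d j b.1) (v y) := (hG.mk' hc he hy).cs
  have h2 := CS.comp h1 (CS_const (l := l) (hG.vs y hy))
  refine h2.congr (Filter.Eventually.of_forall fun _ => rfl) ?_
  filter_upwards [hG.ve y hy, (c₀.isOpen b.1 b.1).mem_nhds (hG.ball hy)] with y' a1 a2
  exact CM.rp_eq a2 a1

/-- The limit of the coordinate representation at `v y`. -/
theorem GB.u0 (hG : GB d c₀ e₀ O W b b' j v) {y : E} (hy : y ∈ (cb b : Set E)) :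
    rp e₀ d j b.1 (v y) = y := CM.rp_eq (hG.ball hy) (hG.self hy)

theorem stepB (hc : CConv l c c₀) (hG : GB d c₀ e₀ O W b b' j v) (hinj : InjOn e₀ O)
    {e e' : κ → Pt E → Pt E}
    (he : ∀ z ∈ O, MC l (fun _ => d) d c c₀ e e₀ z)
    (he' : ∀ z ∈ O, MC l (fun _ => d) d c c₀ e' e₀ z) :
    ∃ h : κ → Pt E → Pt E, (∀ᶠ k in l, Dc (c k) [b] (h k)) ∧
      (∀ z ∈ M c₀, MC l c c₀ c c₀ h id z) ∧
      (∀ z ∈ O, (∃ y ∈ (ob b' : Set E), e₀ z = cls c₀ b.1 y) →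
        ∀ᶠ p in l ×ˢ nh d z, h p.1 (e p.1 p.2) = e' p.1 p.2) ∧
      (∀ z ∈ O, (∀ᶠ p in l ×ˢ nh d z, e p.1 p.2 = e' p.1 p.2) →
        ∀ᶠ p in l ×ˢ nh d z, h p.1 (e p.1 p.2) = e' p.1 p.2) := by
  obtain ⟨χ, hχ, hχ1, hχ0⟩ := cutoff (s := (cb b' : Set E)) (t := cb b) (cb_compact b').isClosed
    (hG.inner.trans (interior_maximal (ob_sub_cb b) (ob_open b)))
  set f : κ → E → E := fun k y => rp (e k) d j b.1 (v y) with hf
  set f' : κ → E → E := fun k y => rp (e' k) d j b.1 (v y) with hf'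
  obtain ⟨G, hF, hGc, hFG⟩ := near_id (cb_compact b) hχ hχ0 (f := f) (fun y hy => hG.cs hc he hy)
  obtain ⟨G', hF', hGc', hFG'⟩ := near_id (cb_compact b) hχ hχ0 (f := f')
    (fun y hy => hG.cs hc he' hy)
  set F : κ → E → E := fun k y => y + χ y • (f k y - y) with hFd
  set F' : κ → E → E := fun k y => y + χ y • (f' k y - y) with hFd'
  have hT : ∀ᶠ k in l, DE (cb b) (F' k ∘ G k) (F k ∘ G' k) := by
    filter_upwards [hFG, hFG'] with k h1 h2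
    exact h2.comp h1.symm
  have hTc : ∀ y, CS l (fun k => F' k ∘ G k) id y := by
    intro y
    have h1 := CS.comp (v := F') (v₀ := id) (u := G) (u₀ := id) (hF' (id y)) (hGc y)
    exact h1
  -- the common coordinate facts near `v y`
  have main : ∀ y ∈ (cb b : Set E), ∀ᶠ p in l ×ˢ 𝓝 (v y),
      e p.1 (cls d j p.2) = cls (c p.1) b.1 (f p.1 (rp e₀ d j b.1 p.2)) ∧
      f p.1 (rp e₀ d j b.1 p.2) ∈ (c p.1).V b.1 b.1 ∧
      e' p.1 (cls d j p.2) = cls (c p.1) b.1 (f' p.1 (rp e₀ d j b.1 p.2)) ∧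
      f' p.1 (rp e₀ d j b.1 p.2) ∈ (c p.1).V b.1 b.1 := by
    intro y hy
    filter_upwards [(hG.mk' hc he hy).ev, (hG.mk' hc he' hy).ev, ev_snd (hG.vu y hy)] with
      p a1 a2 a3
    have e1 : f p.1 (rp e₀ d j b.1 p.2) = rp (e p.1) d j b.1 p.2 := by
      show rp (e p.1) d j b.1 (v (rp e₀ d j b.1 p.2)) = _
      rw [a3]
    have e2 : f' p.1 (rp e₀ d j b.1 p.2) = rp (e' p.1) d j b.1 p.2 := by
      show rp (e' p.1) d j b.1 (v (rp e₀ d j b.1 p.2)) = _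
      rw [a3]
    rw [e1, e2]
    exact ⟨a1.1, a1.2, a2.1, a2.2⟩
  have hu0 : ∀ y ∈ (cb b : Set E), Tendsto (rp e₀ d j b.1) (𝓝 (v y)) (𝓝 y) := by
    intro y hy
    have h1 := (hG.mk' hc he hy).cs.2.1.self.continuousAt.tendsto
    have h2 := hG.u0 hy
    rwa [h2] at h1
  refine ⟨fun k => trp (c k) b.1 (F' k ∘ G k), ?_, ?_, ?_, ?_⟩
  · have hv : valid c₀ [b] := by
      intro b' hb'
      rw [List.mem_singleton.1 hb']
      exact hG.ball
    filter_upwards [hT, valid_ev hc hv] with k h1 h2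
    exact trp_Dc h1 (h2 b (List.mem_singleton.2 rfl))
  · intro z hz
    exact trp_MC hc hT hTc hG.ball hz
  · rintro z hz ⟨y, hy', hzy⟩
    have hy : y ∈ (cb b : Set E) := ob_sub_cb b (hG.inner (ob_sub_cb b' hy'))
    have hzv : z = cls d j (v y) := hinj hz (hG.vO y hy) (hzy.trans (hG.self hy).symm)
    rw [hzv, evp_nh (hG.vV y hy)]
    have hχy : ∀ᶠ x in 𝓝 (v y), χ (rp e₀ d j b.1 x) = 1 :=
      (hu0 y hy).eventually (hχ1 y (ob_sub_cb b' hy'))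
    filter_upwards [main y hy, ev_snd hχy, ev_fst hFG] with p a1 a2 a3
    show trp (c p.1) b.1 (F' p.1 ∘ G p.1) (e p.1 (cls d j p.2)) = e' p.1 (cls d j p.2)
    obtain ⟨b1, b2, b3, b4⟩ := a1
    rw [b1, trp_cls b2, b3]
    congr 1
    have e1 : f p.1 (rp e₀ d j b.1 p.2) = F p.1 (rp e₀ d j b.1 p.2) := by
      show _ = rp e₀ d j b.1 p.2 + χ (rp e₀ d j b.1 p.2) • (f p.1 (rp e₀ d j b.1 p.2) -
        rp e₀ d j b.1 p.2)
      rw [a2, one_smul]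
      abel
    have e2 : f' p.1 (rp e₀ d j b.1 p.2) = F' p.1 (rp e₀ d j b.1 p.2) := by
      show _ = rp e₀ d j b.1 p.2 + χ (rp e₀ d j b.1 p.2) • (f' p.1 (rp e₀ d j b.1 p.2) -
        rp e₀ d j b.1 p.2)
      rw [a2, one_smul]
      abel
    rw [e2]
    show F' p.1 (G p.1 (f p.1 (rp e₀ d j b.1 p.2))) = _
    rw [e1]
    congr 1
    exact a3.left _
  · intro z hz hm
    by_cases hzK : e₀ z ∈ K c₀ [b]
    · obtain ⟨b'', hb'', y, hy, hzy⟩ := hzK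
      rw [List.mem_singleton.1 hb''] at hy hzy
      have hzv : z = cls d j (v y) := hinj hz (hG.vO y hy) (hzy.trans (hG.self hy).symm)
      rw [hzv, evp_nh (hG.vV y hy)] at hm ⊢
      have h1 : Tendsto (fun p : κ × E => (p.1, rp e₀ d j b.1 p.2)) (l ×ˢ 𝓝 (v y))
          (l ×ˢ 𝓝 y) := tendsto_fst.prodMk ((hu0 y hy).comp tendsto_snd)
      have h2 := (hG.cs hc he hy).lift.comp h1
      have h3 := (hGc y).lift.comp h2
      have h4 : Tendsto (fun p : κ × E => (p.1, v p.2)) (l ×ˢ 𝓝 y) (l ×ˢ 𝓝 (v y)) :=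
        tendsto_fst.prodMk ((hG.vs y hy).self.continuousAt.tendsto.comp tendsto_snd)
      have h5 := (h4.comp h3).eventually hm
      have h6 := (h4.comp h3).eventually (main y hy)
      have h7 : ∀ᶠ y' in 𝓝 y, rp e₀ d j b.1 (v y') = y' := by
        filter_upwards [hG.ve y hy, (c₀.isOpen b.1 b.1).mem_nhds (hG.ball hy)] with y' a1 a2
        exact CM.rp_eq a2 a1
      have h8 := h3.eventually (ev_snd h7)
      filter_upwards [main y hy, hm, h5, h6, h8, ev_fst hFG] with p a1 a2 a3 a4 a5 a6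
      obtain ⟨b1, b2, b3, b4⟩ := a1
      show trp (c p.1) b.1 (F' p.1 ∘ G p.1) (e p.1 (cls d j p.2)) = e' p.1 (cls d j p.2)
      rw [← a2, b1, trp_cls b2]
      congr 1
      set a := f p.1 (rp e₀ d j b.1 p.2) with ha
      have a3' : e p.1 (cls d j (v (G p.1 a))) = e' p.1 (cls d j (v (G p.1 a))) := a3
      obtain ⟨c1, c2, c3, c4⟩ := a4
      have c1' : e p.1 (cls d j (v (G p.1 a))) =
        cls (c p.1) b.1 (f p.1 (rp e₀ d j b.1 (v (G p.1 a)))) := c1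
      have c3' : e' p.1 (cls d j (v (G p.1 a))) =
        cls (c p.1) b.1 (f' p.1 (rp e₀ d j b.1 (v (G p.1 a)))) := c3
      have c2' : f p.1 (rp e₀ d j b.1 (v (G p.1 a))) ∈ (c p.1).V b.1 b.1 := c2
      have c4' : f' p.1 (rp e₀ d j b.1 (v (G p.1 a))) ∈ (c p.1).V b.1 b.1 := c4
      have a5' : rp e₀ d j b.1 (v (G p.1 a)) = G p.1 a := a5
      rw [a5'] at c1' c2' c3' c4'
      rw [c1', c3'] at a3'
      have a7 := cls_inj c2' c4' a3'
      have a8 : F p.1 (G p.1 a) = F' p.1 (G p.1 a) := by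
        show G p.1 a + χ (G p.1 a) • (f p.1 (G p.1 a) - G p.1 a) =
          G p.1 a + χ (G p.1 a) • (f' p.1 (G p.1 a) - G p.1 a)
        rw [a7]
      show F' p.1 (G p.1 a) = a
      rw [← a8]
      exact a6.right a
    · have hz' := he z hz
      obtain ⟨q, hq⟩ := exists_mem hz'.1
      obtain ⟨q', hq'⟩ := exists_mem hz'.mem_tgt
      have hv : valid c₀ [b] := by
        intro b' hb'
        rw [List.mem_singleton.1 hb']
        exact hG.ball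
      have h1 := closed_fam hc hv hz'.mem_tgt hzK hq'
      have h2 := hz'.at (CConv.const l d) hc hq hq'
      have h3 := h2.cs.lift
      rw [hz'.rp_eq hq hq'] at h3
      have hq2 := (mem_iff hz'.1 q).1 hq
      have h4 := h3.eventually h1
      rw [hq2.2, evp_nh hq2.1] at hm ⊢
      filter_upwards [h4, hm, h2.ev, ev_fst hT] with p a1 a2 a3 a4
      show trp (c p.1) b.1 (F' p.1 ∘ G p.1) (e p.1 (cls d q.1 p.2)) = e' p.1 (cls d q.1 p.2)
      rw [← a2, a3.1]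
      exact trp_off a4 (cls_mem_M a3.2) a1

theorem locTrans_list (hc : CConv l c c₀) (hinj : InjOn e₀ O)
    {e e' : κ → Pt E → Pt E}
    (he : ∀ z ∈ O, MC l (fun _ => d) d c c₀ e e₀ z)
    (he' : ∀ z ∈ O, MC l (fun _ => d) d c c₀ e' e₀ z)
    (L : List ((ℕ × ℕ × ℕ) × (ℕ × ℕ × ℕ) × ℕ × (E → E)))
    (hL : ∀ β ∈ L, GB d c₀ e₀ O W β.1 β.2.1 β.2.2.1 β.2.2.2) :
    ∃ (T : List (ℕ × ℕ × ℕ)) (h : κ → Pt E → Pt E), valid c₀ T ∧ (∀ w ∈ K c₀ T, W ∈ nh c₀ w) ∧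
      (∀ᶠ k in l, Dc (c k) T (h k)) ∧
      (∀ z ∈ O, MC l (fun _ => d) d c c₀ (fun k => h k ∘ e k) e₀ z) ∧
      ∀ z ∈ O, (∃ β ∈ L, ∃ y ∈ (ob β.2.1 : Set E), e₀ z = cls c₀ β.1.1 y) →
        ∀ᶠ p in l ×ˢ nh d z, h p.1 (e p.1 p.2) = e' p.1 p.2 := by
  induction L with
  | nil =>
    refine ⟨[], fun _ => id, by simp [valid], ?_, ?_, he, ?_⟩
    · rintro w ⟨b, hb, _⟩
      simp at hb
    · exact Filter.Eventually.of_forall fun k => Dc.id'
    · rintro z hz ⟨β, hβ, _⟩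
      simp at hβ
  | cons β L ih =>
    obtain ⟨T, h₁, hT, hTW, hD, hM, hm⟩ := ih (fun β' hβ' => hL β' (List.mem_cons_of_mem β hβ'))
    have hG := hL β List.mem_cons_self
    obtain ⟨h₂, hD2, hM2, hm2, hp2⟩ := stepB hc hG hinj hM he'
    have hval : valid c₀ [β.1] := by
      intro b' hb'
      rw [List.mem_singleton.1 hb']
      exact hG.ball
    refine ⟨T ++ [β.1], fun k => h₂ k ∘ h₁ k, valid_append hT hval, ?_, ?_, ?_, ?_⟩
    · intro w hw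
      rw [K_append] at hw
      rcases hw with hw | hw
      · exact hTW w hw
      · obtain ⟨b', hb', y, hy, rfl⟩ := hw
        rw [List.mem_singleton.1 hb'] at hy ⊢
        exact hG.hW y hy
    · filter_upwards [hD, hD2] with k a1 a2
      exact a2.comp a1
    · intro z hz
      have h1 := hM z hz
      have h2 := MC.comp (CConv.const l d) hc hc (hM2 (e₀ z) h1.mem_tgt) h1
      exact h2
    · rintro z hz ⟨β', hβ', y, hy, hzy⟩
      rcases List.mem_cons.1 hβ' with h | h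
      · subst h
        exact hm2 z hz ⟨y, hy, hzy⟩
      · exact hp2 z hz (hm z hz ⟨β', h, y, hy, hzy⟩)

/-- Local transitivity. -/
theorem locTrans {s : List (ℕ × ℕ × ℕ)} (hc : CConv l c c₀) (hs : valid d s)
    (hO : ∀ z ∈ K d s, O ∈ nh d z) (hinj : InjOn e₀ O) (hLD : ∀ z ∈ O, LD d c₀ e₀ z)
    {e e' : κ → Pt E → Pt E}
    (he : ∀ z ∈ O, MC l (fun _ => d) d c c₀ e e₀ z)
    (he' : ∀ z ∈ O, MC l (fun _ => d) d c c₀ e' e₀ z)
    (hW : ∀ z ∈ K d s, W ∈ nh c₀ (e₀ z)) :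
    ∃ T, valid c₀ T ∧ (∀ w ∈ K c₀ T, W ∈ nh c₀ w) ∧
      ∀ᶠ k in l, ∃ h, Dc (c k) T h ∧ EqNear d s (h ∘ e k) (e' k) := by
  have hKO : K d s ⊆ O := fun z hz => nh_self (K_sub_M hs hz) (P := fun z => z ∈ O) (hO z hz)
  obtain ⟨L, hL1, hL2⟩ := K_cover (d := d) (t := s)
    (R := fun (β : (ℕ × ℕ × ℕ) × (ℕ × ℕ × ℕ) × ℕ × (E → E)) z' =>
      ∃ y ∈ (ob β.2.1 : Set E), e₀ z' = cls c₀ β.1.1 y)
    (Q := fun β => GB d c₀ e₀ O W β.1 β.2.1 β.2.2.1 β.2.2.2) hs (by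
      intro z hz
      have hzLD := hLD z (hKO hz)
      obtain ⟨b, b', j, v, hG, y, hy, hzy⟩ := exists_GB hzLD (hO z hz) (hW z hz)
      refine ⟨(b, b', j, v), hG, ?_⟩
      have h1 : cls c₀ b.1 '' ob b' ∈ nh c₀ (e₀ z) := by
        rw [hzy, nh_cls (hG.ball (ob_sub_cb b (hG.inner (ob_sub_cb b' hy))))]
        exact Filter.image_mem_map ((ob_open b').mem_nhds hy)
      filter_upwards [hzLD.tendsto h1] with z' hz'
      obtain ⟨y', hy', h2⟩ := hz'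
      exact ⟨y', hy', h2.symm⟩)
  obtain ⟨T, h, hT, hTW, hD, _, hm⟩ := locTrans_list hc hinj he he' L hL1
  refine ⟨T, hT, hTW, ?_⟩
  have h1 := K_ev (l := l) (P := fun p : κ × Pt E => h p.1 (e p.1 p.2) = e' p.1 p.2) hs (by
    intro z hz
    obtain ⟨β, hβ, h2⟩ := hL2 z hz
    exact hm z (hKO hz) ⟨β, hβ, nh_self (K_sub_M hs hz) h2⟩)
  filter_upwards [hD, h1] with k a1 a2
  exact ⟨h k, a1, a2⟩

end Pool.Agent.Y570.CR.CM
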