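import Pool.Agent.Y570.CR.CM.Top

/-!
Openness of the relations between embeddings in the code, and small open sets of embeddings.
-/

open Set Filter Topology
open scoped ContDiff Manifold

namespace Pool.Agent.Y570.CR.CM

variable {κ : Type} {E : Type} [NormedAddCommGroup E] [NormedSpace ℝ E] [FiniteDimensional ℝ E] [Rg]
variable {l : Filter κ}

local instance : CompleteSpace E := by
  have : ProperSpace E := FiniteDimensional.proper_real E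
  infer_instance

local instance : ProperSpace E := FiniteDimensional.proper_real E

local instance : ProperSpace (E →L[ℝ] E) := FiniteDimensional.proper_real (E →L[ℝ] E)

variable {d : Code E} {s : List (ℕ × ℕ × ℕ)}

theorem Emb.post {c₀ c : Code E} {e ι : Pt E → Pt E} {O' : Set (Pt E)} (he : Emb d s c₀ e)
    (hs : valid d s) (hO' : ∀ z ∈ K d s, O' ∈ nh c₀ (e z)) (hinj : InjOn ι O')
    (hLD : ∀ w ∈ O', LD c₀ c ι w) : Emb d s c (ι ∘ e) := by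
  obtain ⟨O, hO, hinjO, hLDO⟩ := he
  refine ⟨O ∩ e ⁻¹' O', ?_, ?_, ?_⟩
  · intro z hz
    have hzO : z ∈ O := nh_self (K_sub_M hs hz) (P := fun z => z ∈ O) (hO z hz)
    exact Filter.inter_mem (hO z hz) ((hLDO z hzO).tendsto (hO' z hz))
  · rintro z ⟨hz, hz1⟩ z' ⟨hz', hz1'⟩ h2
    exact hinjO hz hz' (hinj hz1 hz1' h2)
  · rintro z ⟨hz, hz1⟩
    exact (hLD _ hz1).comp (hLDO z hz)

omit [FiniteDimensional ℝ E] in
theorem MK_const {c₀ : Code E} {e₀ : Pt E → Pt E} {q : ℕ × E} {i : ℕ} (hq : q.2 ∈ d.V q.1 q.1)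
    (h1 : ∀ᶠ x in 𝓝 q.2, e₀ (cls d q.1 x) = cls c₀ i (rp e₀ d q.1 i x) ∧
      rp e₀ d q.1 i x ∈ c₀.V i i) (h2 : SN (rp e₀ d q.1 i) q.2) :
    MK l (fun _ => d) d (fun _ => c₀) c₀ (fun _ => e₀) e₀ q i :=
  ⟨hq, h1, ev_snd h1, CS_const h2⟩

omit [FiniteDimensional ℝ E] in
theorem tendsto_of_rp {c₀ : Code E} {e₀ : Pt E → Pt E} {q : ℕ × E} {i : ℕ}
    (hq : q.2 ∈ d.V q.1 q.1)
    (h1 : ∀ᶠ x in 𝓝 q.2, e₀ (cls d q.1 x) = cls c₀ i (rp e₀ d q.1 i x) ∧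
      rp e₀ d q.1 i x ∈ c₀.V i i) (h2 : SN (rp e₀ d q.1 i) q.2) :
    Tendsto e₀ (nh d (cls d q.1 q.2)) (nh c₀ (e₀ (cls d q.1 q.2))) := by
  have h3 := h1.self_of_nhds
  rw [h3.1, nh_cls h3.2, nh_cls hq, tendsto_map'_iff]
  have h4 : Tendsto (fun x => cls c₀ i (rp e₀ d q.1 i x)) (𝓝 q.2)
      (map (cls c₀ i) (𝓝 (rp e₀ d q.1 i q.2))) :=
    tendsto_map.comp h2.self.continuousAt.tendsto
  refine h4.congr' ?_
  filter_upwards [h1] with x hx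
  exact hx.1.symm

/-- Openness property of a set of embeddings at `y₀`. -/
def OP (y₀ : Y d s) (W : Set (Y d s)) : Prop :=
  ∃ t₀, valid y₀.c t₀ ∧ ∀ (κ : Type) (l : Filter κ) (c : κ → Code E) (ι : κ → Pt E → Pt E),
    Tendsto c l (𝓝 y₀.c) → (∀ z ∈ K y₀.c t₀, MC l (fun _ => y₀.c) y₀.c c y₀.c ι id z) →
    ∀ᶠ k in l, ∀ h : Emb d s (c k) (ι k ∘ y₀.e), (⟨c k, ι k ∘ y₀.e, h⟩ : Y d s) ∈ W

theorem OP_univ (y₀ : Y d s) : OP y₀ univ :=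
  ⟨[], by simp [valid], fun _ _ _ _ _ _ => Filter.Eventually.of_forall fun _ _ => mem_univ _⟩

theorem OP_inter {y₀ : Y d s} {W W' : Set (Y d s)} (h : OP y₀ W) (h' : OP y₀ W') :
    OP y₀ (W ∩ W') := by
  obtain ⟨t, ht, h⟩ := h
  obtain ⟨t', ht', h'⟩ := h'
  refine ⟨t ++ t', valid_append ht ht', ?_⟩
  intro κ l c ι hc hι
  rw [K_append] at hι
  filter_upwards [h κ l c ι hc (fun z hz => hι z (Or.inl hz)),
    h' κ l c ι hc (fun z hz => hι z (Or.inr hz))] with k a1 a2 hE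
  exact ⟨a1 hE, a2 hE⟩

theorem OP_mono {y₀ : Y d s} {W W' : Set (Y d s)} (h : OP y₀ W) (hW : W ⊆ W') : OP y₀ W' := by
  obtain ⟨t, ht, h⟩ := h
  refine ⟨t, ht, ?_⟩
  intro κ l c ι hc hι
  filter_upwards [h κ l c ι hc hι] with k a1 hE
  exact hW (a1 hE)

theorem OP_SE {y₀ : Y d s} {j i : ℕ} {b : ℕ × ℕ × ℕ} {G : Set (E × (E →L[ℝ] E))} (hG : IsOpen G)
    (h : y₀ ∈ SE d s j i b G) : OP y₀ (SE d s j i b G) := by
  have hcb : (cb (j, b.2) : Set E) = cb b := rfl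
  have hval : valid d [(j, b.2)] := by
    intro b' hb'
    rw [List.mem_singleton.1 hb', hcb]
    exact fun x hx => (h x hx).1
  have hK : ∀ z ∈ K d [(j, b.2)], ∃ x ∈ (cb b : Set E), z = cls d j x := by
    rintro z ⟨b', hb', x, hx, rfl⟩
    rw [List.mem_singleton.1 hb'] at hx ⊢
    exact ⟨x, hx, rfl⟩
  obtain ⟨t₀, ht₀, hcov, _⟩ := image_cover (e := y₀.e) (c := y₀.c) (W := univ) hval
    (by
      intro z hz
      obtain ⟨x, hx, rfl⟩ := hK z hz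
      have h1 := h x hx
      exact tendsto_of_rp (q := (j, x)) h1.1 h1.2.1 h1.2.2.1)
    (by
      intro z hz
      obtain ⟨x, hx, rfl⟩ := hK z hz
      have h1 := (h x hx).2.1.self_of_nhds
      rw [h1.1]
      exact cls_mem_M h1.2)
    (fun z _ => Filter.univ_mem)
  refine ⟨t₀, ht₀, ?_⟩
  intro κ l c ι hc hι
  have hC := conv_of_tendsto hc
  have key : ∀ x ∈ (cb b : Set E), ∀ᶠ p in l ×ˢ 𝓝 x,
      Reg d (c p.1) (ι p.1 ∘ y₀.e) j i G p.2 := by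
    intro x hx
    have hR := h x hx
    have h1 : MK l (fun _ => d) d (fun _ => y₀.c) y₀.c (fun _ => y₀.e) y₀.e (j, x) i :=
      MK_const hR.1 hR.2.1 hR.2.2.1
    have h2 : MC l (fun _ => d) d (fun _ => y₀.c) y₀.c (fun _ => y₀.e) y₀.e (cls d j x) := h1.mc
    have hzK : y₀.e (cls d j x) ∈ K y₀.c t₀ :=
      nh_self h2.mem_tgt (P := fun w => w ∈ K y₀.c t₀)
        (hcov _ ⟨(j, b.2), List.mem_singleton.2 rfl, x, hx, rfl⟩)
    have h3 : MC l (fun _ => d) d c y₀.c (fun k => ι k ∘ y₀.e) (id ∘ y₀.e) (cls d j x) :=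
      MC.comp (CConv.const l d) (CConv.const l y₀.c) hC (hι _ hzK) h2
    have hR1 := hR.2.1.self_of_nhds
    have hmem : ((i, rp y₀.e d j i x) : ℕ × E) ∈ (id ∘ y₀.e) (cls d j x) := by
      show ((i, rp y₀.e d j i x) : ℕ × E) ∈ y₀.e (cls d j x)
      rw [hR1.1]
      exact mem_cls_self hR1.2
    have h4 := h3.at (CConv.const l d) hC (mem_cls_self hR.1) hmem
    have h5 := h4.cs.2.2.eventually (hG.mem_nhds hR.2.2.2)
    filter_upwards [h5, ev_ev h4.ev, ev_ev h4.cs.1, ev_snd ((d.isOpen j j).mem_nhds hR.1)] with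
      p a1 a2 a3 a4
    exact ⟨a4, a2, a3, a1⟩
  have h6 := compact_ev (cb_compact b) key
  filter_upwards [h6] with k hk hE x hx
  exact (hk x hx).self_of_nhds

theorem Y_open {y₀ : Y d s} {W : Set (Y d s)} (hW : IsOpen W) (hy : y₀ ∈ W) : OP y₀ W := by
  have hb := TopologicalSpace.isTopologicalBasis_of_subbasis (rfl : topY d s = _)
  obtain ⟨V, hV, hyV, hVW⟩ := hb.exists_subset_of_mem_open hy hW
  obtain ⟨f, ⟨hf, hfs⟩, rfl⟩ := hV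
  refine OP_mono ?_ hVW
  have hyV' : ∀ S ∈ f, y₀ ∈ S := fun S hS => hyV S hS
  clear hVW hyV
  induction f, hf using Set.Finite.induction_on with
  | empty =>
    simp only [sInter_empty]
    exact OP_univ y₀
  | insert _ _ ih =>
    rename_i S f hS hf
    simp only [sInter_insert]
    refine OP_inter ?_ (ih (fun T hT => hfs (mem_insert_of_mem _ hT))
      (fun T hT => hyV' T (mem_insert_of_mem _ hT)))
    have hSy := hyV' S (mem_insert _ _)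
    rcases hfs (mem_insert _ _) with h | h
    · obtain ⟨C, hC, rfl⟩ := h
      refine ⟨[], by simp [valid], ?_⟩
      intro κ l c ι hc _
      have h1 := hc.eventually ((TopologicalSpace.isOpen_generateFrom_of_mem hC).mem_nhds hSy)
      filter_upwards [h1] with k hk _
      exact hk
    · obtain ⟨p, hp⟩ := mem_iUnion.1 h
      obtain ⟨G, hG, rfl⟩ := hp
      exact OP_SE (TopologicalSpace.isOpen_of_mem_countableBasis hG) hSy

/-- The set of codes in which a relation between two classes holds is open. -/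
theorem rel_open {d₂ : Code E} {s₂ : List (ℕ × ℕ × ℕ)} (hs : valid d s) (hs₂ : valid d₂ s₂)
    {f : Pt E → Pt E} (hf : Emb d s d₂ f) (hfK : ∀ z ∈ K d s, f z ∈ K d₂ s₂)
    {W₂ : Set (Y d₂ s₂)} {W₁ : Set (Y d s)} (hW₂ : IsOpen W₂) (hW₁ : IsOpen W₁) :
    IsOpen {c : Code E | ∃ y₂ ∈ W₂, ∃ y₁ ∈ W₁, y₂.c = c ∧ y₁.c = c ∧
      sim d s c (y₂.e ∘ f) y₁.e} := by
  rw [isOpen_iff_eventually]
  rintro c₀ ⟨y₂, hy₂, y₁, hy₁, h2, h1, hsim⟩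
  obtain ⟨T, h, hD, hh⟩ := hsim
  obtain ⟨t₂, ht₂, hop₂⟩ := Y_open hW₂ hy₂
  obtain ⟨t₁, ht₁, hop₁⟩ := Y_open hW₁ hy₁
  have hemb₂ := y₂.emb
  have hemb₁ := y₁.emb
  rw [h2] at ht₂ hop₂ hemb₂
  rw [h1] at ht₁ hop₁ hemb₁
  obtain ⟨O₂, hO₂, hinj₂, hLD₂⟩ := id hemb₂
  obtain ⟨O₁, hO₁, hinj₁, hLD₁⟩ := id hemb₁
  have hKO₂ : ∀ z ∈ K d₂ s₂, z ∈ O₂ := fun z hz =>
    nh_self (K_sub_M hs₂ hz) (P := fun z => z ∈ O₂) (hO₂ z hz)
  have hKO₁ : ∀ z ∈ K d s, z ∈ O₁ := fun z hz =>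
    nh_self (K_sub_M hs hz) (P := fun z => z ∈ O₁) (hO₁ z hz)
  obtain ⟨u₂, hu₂, hcu₂, _⟩ := image_cover (e := y₂.e) (c := c₀) (W := univ) hs₂
    (fun z hz => (hLD₂ z (hKO₂ z hz)).tendsto) (fun z hz => (hLD₂ z (hKO₂ z hz)).mem_tgt)
    (fun z _ => Filter.univ_mem)
  obtain ⟨u₁, hu₁, hcu₁, _⟩ := image_cover (e := y₁.e) (c := c₀) (W := univ) hs
    (fun z hz => (hLD₁ z (hKO₁ z hz)).tendsto) (fun z hz => (hLD₁ z (hKO₁ z hz)).mem_tgt)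
    (fun z _ => Filter.univ_mem)
  set t' := (t₂ ++ t₁) ++ (T ++ (u₂ ++ u₁)) with ht'
  have hvt' : valid c₀ t' := valid_append (valid_append ht₂ ht₁)
    (valid_append hD.val (valid_append hu₂ hu₁))
  have hKt' : K c₀ t' = (K c₀ t₂ ∪ K c₀ t₁) ∪ (K c₀ T ∪ (K c₀ u₂ ∪ K c₀ u₁)) := by
    rw [ht', K_append, K_append, K_append, K_append]
  obtain ⟨t, ht, hcov, _⟩ := enlarge (W := univ) hvt' (fun z _ => Filter.univ_mem)
  have hKt : ∀ z ∈ K c₀ t', z ∈ K c₀ t := fun z hz =>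
    nh_self (K_sub_M hvt' hz) (P := fun z => z ∈ K c₀ t) (hcov z hz)
  obtain ⟨ι, hι, hιe⟩ := transfer_emb (l := 𝓝 c₀) (c := id) (conv_of_tendsto tendsto_id) ht
  have hι₂ : ∀ z ∈ K c₀ t₂, MC (𝓝 c₀) (fun _ => c₀) c₀ id c₀ ι id z := fun z hz =>
    hι z (hKt z (by rw [hKt']; exact Or.inl (Or.inl hz)))
  have hι₁ : ∀ z ∈ K c₀ t₁, MC (𝓝 c₀) (fun _ => c₀) c₀ id c₀ ι id z := fun z hz =>
    hι z (hKt z (by rw [hKt']; exact Or.inl (Or.inr hz)))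
  have e₂ := hop₂ (Code E) (𝓝 c₀) id ι tendsto_id hι₂
  have e₁ := hop₁ (Code E) (𝓝 c₀) id ι tendsto_id hι₁
  -- neighbourhoods of the images
  have n₂ : ∀ z ∈ K d₂ s₂, K c₀ t ∈ nh c₀ (y₂.e z) := by
    intro z hz
    refine hcov _ ?_
    rw [hKt']
    exact Or.inr (Or.inr (Or.inl (nh_self (hLD₂ z (hKO₂ z hz)).mem_tgt
      (P := fun w => w ∈ K c₀ u₂) (hcu₂ z hz))))
  have n₁ : ∀ z ∈ K d s, K c₀ t ∈ nh c₀ (y₁.e z) := by
    intro z hz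
    refine hcov _ ?_
    rw [hKt']
    exact Or.inr (Or.inr (Or.inr (nh_self (hLD₁ z (hKO₁ z hz)).mem_tgt
      (P := fun w => w ∈ K c₀ u₁) (hcu₁ z hz))))
  have nT : ∀ z ∈ K c₀ T, K c₀ t ∈ nh c₀ z := by
    intro z hz
    refine hcov _ ?_
    rw [hKt']
    exact Or.inr (Or.inl hz)
  filter_upwards [hιe, e₂, e₁] with c hc1 hc2 hc3
  have hE₂ : Emb d₂ s₂ c (ι c ∘ y₂.e) := hemb₂.post hs₂ n₂ hc1.1 hc1.2
  have hE₁ : Emb d s c (ι c ∘ y₁.e) := hemb₁.post hs n₁ hc1.1 hc1.2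
  refine ⟨⟨c, ι c ∘ y₂.e, hE₂⟩, hc2 hE₂, ⟨c, ι c ∘ y₁.e, hE₁⟩, hc3 hE₁, rfl, rfl, ?_⟩
  show sim d s c (ι c ∘ (y₂.e ∘ f)) (ι c ∘ y₁.e)
  refine sim_post hc1.1 hc1.2 hD nT ?_ hh
  intro z hz
  obtain ⟨O, hO, _, hLD⟩ := hf
  have hzO : z ∈ O := nh_self (K_sub_M hs hz) (P := fun z => z ∈ O) (hO z hz)
  exact (((hLD₂ _ (hKO₂ _ (hfK z hz))).comp (hLD z hzO)).tendsto) (n₂ _ (hfK z hz))

omit [FiniteDimensional ℝ E] in
/-- Change of the family of codes. -/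
theorem MC.congr_code {c c' : κ → Code E} {c₀ : Code E} {e : κ → Pt E → Pt E} {e₀ : Pt E → Pt E}
    (hcc : ∀ᶠ k in l, c k = c' k) {z : Pt E} (h : MC l (fun _ => d) d c c₀ e e₀ z) :
    MC l (fun _ => d) d c' c₀ e e₀ z := by
  obtain ⟨hz, q, hq, i, h⟩ := h
  refine ⟨hz, q, hq, i, ⟨h.src, h.ev0, ?_, h.cs⟩⟩
  filter_upwards [h.ev, ev_fst hcc] with p a1 a2
  rw [← a2]
  exact a1

theorem exists_small (hs : valid d s) (y₀ : Y d s) {W : Set (Pt E)}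
    (hW : ∀ z ∈ K d s, W ∈ nh y₀.c (y₀.e z)) :
    ∃ T, (∀ w ∈ K y₀.c T, W ∈ nh y₀.c w) ∧ ∃ N : Set (Y d s), IsOpen N ∧ y₀ ∈ N ∧
      ∀ y ∈ N, ∀ y' ∈ N, y.c = y'.c → ∃ h, Dc y.c T h ∧ EqNear d s (h ∘ y.e) y'.e := by
  obtain ⟨O, hO, hinj, hLD⟩ := y₀.emb
  set l : Filter (Y d s × Y d s) := (𝓝 y₀ ×ˢ 𝓝 y₀) ⊓ 𝓟 {p | p.1.c = p.2.c} with hl
  have h1 : Tendsto (fun p : Y d s × Y d s => p.1) l (𝓝 y₀) := tendsto_fst.mono_left inf_le_left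
  have h2 : Tendsto (fun p : Y d s × Y d s => p.2) l (𝓝 y₀) := tendsto_snd.mono_left inf_le_left
  have h3 : ∀ᶠ p in l, p.2.c = p.1.c := by
    have h4 : ∀ᶠ p in 𝓟 {p : Y d s × Y d s | p.1.c = p.2.c}, p.2.c = p.1.c := by
      rw [eventually_principal]
      intro p hp
      exact hp.symm
    exact h4.filter_mono inf_le_right
  obtain ⟨T, hT, hTW, hev⟩ := locTrans (l := l) (c := fun p => p.1.c) (e := fun p => p.1.e)
    (e' := fun p => p.2.e) (Y_conv h1) hs hO hinj hLD (fun z hz => Y_mc h1 (hLD z hz))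
    (fun z hz => MC.congr_code h3 (Y_mc h2 (hLD z hz))) hW
  refine ⟨T, hTW, ?_⟩
  rw [hl, eventually_inf_principal, Filter.eventually_prod_iff] at hev
  obtain ⟨pa, ha, pb, hb, h⟩ := hev
  obtain ⟨N, hN, hNo, hyN⟩ := mem_nhds_iff.1 (Filter.inter_mem ha hb)
  exact ⟨N, hNo, hyN, fun y hy y' hy' hyy => h (hN hy).1 (hN hy').2 hyy⟩

end Pool.Agent.Y570.CR.CM
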