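import Pool.Agent.Y570.CR.CM.Near

/-!
Transplantation of a diffeomorphism supported in a chart ball.
-/

open Set Filter Topology
open scoped ContDiff

namespace Pool.Agent.Y570.CR.CM

variable {κ : Type} {E : Type} [NormedAddCommGroup E] [NormedSpace ℝ E] [FiniteDimensional ℝ E] [Rg]
variable {l : Filter κ}

omit [FiniteDimensional ℝ E] in
theorem DE.mapsTo {S : Set E} {T T' : E → E} (h : DE S T T') {y : E} (hy : y ∈ S) : T y ∈ S := by
  by_contra hn
  have h1 := h.off _ hn
  have h2 : T y = y := by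
    have h3 := congrArg T' h1
    rwa [h.left, h.left] at h3
  rw [h2] at hn
  exact hn hy

open Classical in
/-- The map of the coded manifold which is `T` in the chart `i`. -/
noncomputable def trp (c : Code E) (i : ℕ) (T : E → E) (z : Pt E) : Pt E :=
  if ∃ y, (i, y) ∈ z then cls c i (T (coord i z)) else z

omit [FiniteDimensional ℝ E] in
theorem trp_cls {c : Code E} {i : ℕ} {T : E → E} {y : E} (hy : y ∈ c.V i i) :
    trp c i T (cls c i y) = cls c i (T y) := by
  unfold trp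
  rw [if_pos ⟨y, mem_cls_self hy⟩, coord_cls hy]

theorem trp_off {c : Code E} {b : ℕ × ℕ × ℕ} {T T' : E → E} (hT : DE (cb b) T T') {z : Pt E}
    (hz : z ∈ M c) (hzK : z ∉ K c [b]) : trp c b.1 T z = z := by
  by_cases h : ∃ y, (b.1, y) ∈ z
  · obtain ⟨y, hy⟩ := h
    have h1 := (mem_iff hz _).1 hy
    have h2 : y ∉ (cb b : Set E) := by
      intro h3
      apply hzK
      exact ⟨b, List.mem_singleton.2 rfl, y, h3, h1.2⟩
    have h3 : z = cls c b.1 y := h1.2
    rw [h3, trp_cls h1.1, hT.off y h2]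
  · unfold trp
    rw [if_neg h]

theorem T_mem {c : Code E} {b : ℕ × ℕ × ℕ} {T T' : E → E} (hT : DE (cb b) T T')
    (hb : (cb b : Set E) ⊆ c.V b.1 b.1) {y : E} (hy : y ∈ c.V b.1 b.1) : T y ∈ c.V b.1 b.1 := by
  by_cases h : y ∈ (cb b : Set E)
  · exact hb (hT.mapsTo h)
  · rw [hT.off y h]
    exact hy

theorem trp_mem {c : Code E} {b : ℕ × ℕ × ℕ} {T T' : E → E} (hT : DE (cb b) T T')
    (hb : (cb b : Set E) ⊆ c.V b.1 b.1) {z : Pt E} (hz : z ∈ M c) : trp c b.1 T z ∈ M c := by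
  by_cases h : ∃ y, (b.1, y) ∈ z
  · obtain ⟨y, hy⟩ := h
    have h1 := (mem_iff hz _).1 hy
    have h3 : z = cls c b.1 y := h1.2
    rw [h3, trp_cls h1.1]
    exact cls_mem_M (T_mem hT hb h1.1)
  · unfold trp
    rw [if_neg h]
    exact hz

theorem trp_inv {c : Code E} {b : ℕ × ℕ × ℕ} {T T' : E → E} (hT : DE (cb b) T T')
    (hb : (cb b : Set E) ⊆ c.V b.1 b.1) {z : Pt E} (hz : z ∈ M c) :
    trp c b.1 T' (trp c b.1 T z) = z := by
  by_cases h : ∃ y, (b.1, y) ∈ z
  · obtain ⟨y, hy⟩ := h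
    have h1 := (mem_iff hz _).1 hy
    have h3 : z = cls c b.1 y := h1.2
    rw [h3, trp_cls h1.1, trp_cls (T_mem hT hb h1.1), hT.left]
  · have h1 : ∀ R : E → E, trp c b.1 R z = z := by
      intro R
      unfold trp
      rw [if_neg h]
    rw [h1, h1]

theorem trp_Dc {c : Code E} {b : ℕ × ℕ × ℕ} {T T' : E → E} (hT : DE (cb b) T T')
    (hb : (cb b : Set E) ⊆ c.V b.1 b.1) : Dc c [b] (trp c b.1 T) := by
  have hval : valid c [b] := by
    intro b' hb'
    rw [List.mem_singleton.1 hb']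
    exact hb
  refine ⟨?_, ?_, hval, ?_⟩
  · refine InvOn.bijOn (f' := trp c b.1 T') ⟨?_, ?_⟩ (fun z hz => trp_mem hT hb hz)
      (fun z hz => trp_mem hT.symm hb hz)
    · intro z hz
      exact trp_inv hT hb hz
    · intro z hz
      exact trp_inv hT.symm hb hz
  · intro z hz
    by_cases h : ∃ y, (b.1, y) ∈ z
    · obtain ⟨y, hy⟩ := h
      have h1 := (mem_iff hz _).1 hy
      refine ⟨hz, (b.1, y), hy, b.1, LK.of h1.1 T (T_mem hT hb h1.1) ?_ ?_ ?_⟩
      · filter_upwards [(c.isOpen b.1 b.1).mem_nhds h1.1] with x hx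
        exact trp_cls hx
      · exact Filter.Eventually.of_forall fun x => hT.sm.contDiffAt
      · refine (isInvertible_of_inv (v := T') ?_ ?_ ?_ ?_).1
        · exact Filter.Eventually.of_forall fun x => hT.sm.contDiffAt
        · exact Filter.Eventually.of_forall fun x => hT.sm'.contDiffAt
        · exact Filter.Eventually.of_forall fun x => hT.left x
        · exact Filter.Eventually.of_forall fun x => hT.right x
    · have hzK : z ∉ K c [b] := by
        rintro ⟨b', hb', x, hx, hzx⟩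
        rw [List.mem_singleton.1 hb'] at hx hzx
        exact h ⟨x, by rw [hzx]; exact mem_cls_self (hb hx)⟩
      refine (LD_id hz).congr ?_
      filter_upwards [K_closed hval hz hzK, nh_M hz] with z' h1 h2
      exact (trp_off hT h2 h1).symm
  · intro z hz hzK
    exact trp_off hT hz hzK

theorem trp_MC {c : κ → Code E} {c₀ : Code E} (hc : CConv l c c₀) {b : ℕ × ℕ × ℕ}
    {T T' : κ → E → E} (hT : ∀ᶠ k in l, DE (cb b) (T k) (T' k)) (hTc : ∀ y, CS l T id y)
    (hb : (cb b : Set E) ⊆ c₀.V b.1 b.1) {z : Pt E} (hz : z ∈ M c₀) :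
    MC l c c₀ c c₀ (fun k => trp (c k) b.1 (T k)) id z := by
  have hval : valid c₀ [b] := by
    intro b' hb'
    rw [List.mem_singleton.1 hb']
    exact hb
  by_cases h : ∃ y, (b.1, y) ∈ z
  · obtain ⟨y, hy⟩ := h
    have h1 := (mem_iff hz _).1 hy
    refine ⟨hz, (b.1, y), hy, b.1, MK.of hc h1.1 T id h1.1 ?_ ?_ (hTc y)⟩
    · exact Filter.Eventually.of_forall fun x => rfl
    · filter_upwards [hc.mem b.1 b.1 y h1.1] with p hp
      exact trp_cls hp
  · have hzK : z ∉ K c₀ [b] := by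
      rintro ⟨b', hb', x, hx, hzx⟩
      rw [List.mem_singleton.1 hb'] at hx hzx
      exact h ⟨x, by rw [hzx]; exact mem_cls_self (hb hx)⟩
    obtain ⟨q, hq⟩ := exists_mem hz
    have h1 := (mem_iff hz _).1 hq
    refine ⟨hz, q, hq, q.1, MK.of hc h1.1 (fun _ => id) id h1.1 ?_ ?_ CS_id⟩
    · exact Filter.Eventually.of_forall fun x => rfl
    · filter_upwards [closed_fam hc hval hz hzK hq, hc.mem q.1 q.1 q.2 h1.1, ev_fst hT] with p a1 a2 a3
      exact trp_off a3 (cls_mem_M a2) a1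

end Pool.Agent.Y570.CR.CM
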